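import Pool.Agent.H78.VSP.Stmt

set_option autoImplicit false

open MvPolynomial

namespace Pool.Agent.H78.VSP

namespace CoxData

variable (X : CoxData)

/-- The Hilbert function `u ↦ dim (S/J)_u`. -/
noncomputable def hf (J : Ideal X.S) (u : X.Pic) : ℕ :=
  Module.finrank ℂ (X.gr u ⧸ (J.restrictScalars ℂ).comap (X.gr u).subtype)

/-- The Hilbert function `h_{r,X}` of `r` general points (the generic, i.e. maximal, value). -/
noncomputable def hgen (r : ℕ) (u : X.Pic) : ℕ :=
  ⨆ x : Fin r → X.Pt, X.hf (X.ptIdeal x) u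

/-- The multigraded Hilbert scheme (its closed points): homogeneous ideals with Hilbert
function `h`. -/
def Hilb (h : X.Pic → ℕ) : Type :=
  {J : Ideal X.S // (∀ f ∈ J, ∀ u, weightedHomogeneousComponent X.deg u f ∈ J) ∧
    ∀ u, X.hf J u = h u}

/-- The Zariski topology of the multigraded Hilbert scheme, as a subspace of
`∏_{u ∈ D} Gr(S_u)`: quotient of the Zariski topology on frames (matrices). -/
@[reducible] noncomputable def topo (r : ℕ) (D : Finset X.Pic) (h : X.Pic → ℕ) : TopologicalSpace (X.Hilb h) :=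
  TopologicalSpace.coinduced
    (fun q : {q : (X.Mon D × Fin r → ℂ) × X.Hilb h // X.IsFrame q.1 q.2.1} => q.1.2)
    (TopologicalSpace.induced (fun q => pointToPoint (k := ℂ) q.1.1) PrimeSpectrum.zariskiTopology)

/-- The finite set of degrees `D` is large enough for `h`: every ideal in the Hilbert scheme is
generated by its elements of degrees in `D`. -/
def Supportive (D : Finset X.Pic) (h : X.Pic → ℕ) : Prop :=
  ∀ J : X.Hilb h, J.1 = Ideal.span {f | f ∈ J.1 ∧ ∃ u ∈ D, f ∈ X.gr u}

/-- `Slip_{r,X}`: closure of the set of the saturated ideals of `r` points with Hilbert function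
`h_{r,X}`. -/
def Slip (r : ℕ) (D : Finset X.Pic) : Set (X.Hilb (X.hgen r)) :=
  @closure _ (X.topo r D _) {J | ∃ x : Fin r → X.Pt, J.1 = X.ptIdeal x}

/-- The annihilator of `F ∈ T_v`, where `T` is the graded dual of `S`. -/
def Ann {v : X.Pic} (F : Module.Dual ℂ (X.gr v)) : Set X.S :=
  {g | ∀ k : X.S, F ⟨weightedHomogeneousComponent X.deg v (g * k),
    weightedHomogeneousComponent_mem _ _ _⟩ = 0}

/-- The border variety of sums of powers. -/
def bVSP (r : ℕ) (D : Finset X.Pic) {v : X.Pic} (F : Module.Dual ℂ (X.gr v)) :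
    Set (X.Hilb (X.hgen r)) :=
  {J | J ∈ X.Slip r D ∧ (J.1 : Set X.S) ⊆ X.Ann F}

/-- The (affine cone over the) secant variety `σ_r(X)` in `T_v`: Zariski closure of the set of
sums of `r` multiples of points of `X`. -/
def sec (r : ℕ) (v : X.Pic) : Set (Module.Dual ℂ (X.gr v)) :=
  {F | ∀ p : MvPolynomial (X.gr v) ℂ,
    (∀ (x : Fin r → X.Pt) (c : Fin r → ℂ), eval (fun g => (∑ i, c i • X.ev v (x i)) g) p = 0) →
    eval (fun g => F g) p = 0}

/-- The border rank of `F ∈ T_v`. -/
noncomputable def borderRank {v : X.Pic} (F : Module.Dual ℂ (X.gr v)) : ℕ :=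
  sInf {k | F ∈ X.sec k v}

end CoxData

end Pool.Agent.H78.VSP
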