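import Pool.Agent.H78.VSP.Cone

set_option autoImplicit false

open MvPolynomial

namespace Pool.Agent.H78.VSP

theorem answer (X : CoxData) (v : X.Pic) (r : ℕ) :
    (∃ D : Finset X.Pic, v ∈ D ∧ ∀ k ≤ r, X.Supportive D (X.hgen k)) ∧
    ∀ D : Finset X.Pic, v ∈ D → (∀ k ≤ r, X.Supportive D (X.hgen k)) →
      ∃ (d : ℕ) (p : MvPolynomial (X.gr v) ℂ), p.IsHomogeneous d ∧
        (∀ q : MvPolynomial (X.gr v) ℂ, (∃ F ∈ X.sec r v, eval (fun g => F g) q ≠ 0) →
          ∃ F ∈ X.sec r v, eval (fun g => F g) (p * q) ≠ 0) ∧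
        ∀ F ∈ X.sec r v, eval (fun g => F g) p ≠ 0 →
          (X.bVSP (X.borderRank F) D F).Nonempty ∧
          ∀ Z, IsComp (X.topo (X.borderRank F) D _) (X.bVSP (X.borderRank F) D F) Z →
            Generally (X.topo (X.borderRank F) D _) Z (fun J => X.Saturated J.1) ∧
            ¬ Generally (X.topo (X.borderRank F) D _) Z (fun J => ¬ X.Saturated J.1) := by
  refine ⟨X.exists_D r v, fun D hv hD => ?_⟩
  obtain ⟨k, hkr, hk, q₁, hq₁, hq₁'⟩ := X.exists_general_borderRank r v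
  obtain ⟨q₂, hq₂, hq₂'⟩ := X.exists_nonempty k v
  obtain ⟨q₃, hq₃, hq₃'⟩ := X.main hv (hD k hkr)
  rw [hk] at hq₂ hq₂' hq₃ hq₃'
  have h0 := X.nv_mul (X.nv_mul hq₁ hq₂) hq₃
  obtain ⟨d, p, hp1, hp2, hp3⟩ := X.exists_homog (v := v) (k := r)
    (fun F => (X.bVSP (X.borderRank F) D F).Nonempty ∧
      ∀ Z, IsComp (X.topo (X.borderRank F) D _) (X.bVSP (X.borderRank F) D F) Z →
        Generally (X.topo (X.borderRank F) D _) Z (fun J => X.Saturated J.1) ∧
        ¬ Generally (X.topo (X.borderRank F) D _) Z (fun J => ¬ X.Saturated J.1))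
    (fun F c hc hF => by
      rw [X.borderRank_smul hc, X.bVSP_smul _ _ hc] at hF
      exact hF) h0
    (fun F hF hFp => by
      rw [map_mul, map_mul] at hFp
      have h1 := left_ne_zero_of_mul (left_ne_zero_of_mul hFp)
      have h2 := right_ne_zero_of_mul (left_ne_zero_of_mul hFp)
      have h3 := right_ne_zero_of_mul hFp
      rw [hq₁' F hF h1]
      refine ⟨hq₂' F hF h2 D, fun Z hZ => ?_⟩
      have h4 := hq₃' F hF h3 Z hZ
      exact ⟨h4, generally_not (X.topo k D _) hZ.1.1 h4⟩)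
  exact ⟨d, p, hp1, fun q hq => X.nv_mul hp2 hq, hp3⟩

end Pool.Agent.H78.VSP
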