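import Pool.Agent.H78.VSP.Defs

set_option autoImplicit false

open MvPolynomial

namespace Pool.Agent.H78.VSP

namespace CoxData

variable (X : CoxData)

theorem eval_of_mem_ptIdeal {r : ℕ} (x : Fin r → X.Pt) {f : X.S} (hf : f ∈ X.ptIdeal x)
    (i : Fin r) : eval (x i).1 f = 0 := by
  have : X.ptIdeal x ≤ RingHom.ker (eval (x i).1) := by
    refine Ideal.span_le.2 ?_
    rintro g ⟨-, hg⟩
    exact hg i
  exact this hf

theorem mem_ptIdeal_iff {r : ℕ} (x : Fin r → X.Pt) {u : X.Pic} {f : X.S} (hu : f ∈ X.gr u) :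
    f ∈ X.ptIdeal x ↔ ∀ i, eval (x i).1 f = 0 :=
  ⟨fun h i => X.eval_of_mem_ptIdeal x h i, fun h => Ideal.subset_span ⟨⟨u, hu⟩, h⟩⟩

attribute [local instance] MvPolynomial.weightedGradedAlgebra in
theorem comp_mem_span (A : Set X.S) (hA : ∀ f ∈ A, ∃ u, f ∈ X.gr u) {f : X.S}
    (hf : f ∈ Ideal.span A) (u : X.Pic) :
    weightedHomogeneousComponent X.deg u f ∈ Ideal.span A := by
  classical
  refine weightedHomogeneousComponent_mem_of_mem ℂ X.deg ?_ hf u
  exact Ideal.homogeneous_span _ _ hA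

theorem ptIdeal_homog {r : ℕ} (x : Fin r → X.Pt) : ∀ f ∈ X.ptIdeal x, ∀ u,
    weightedHomogeneousComponent X.deg u f ∈ X.ptIdeal x := fun _ hf u =>
  X.comp_mem_span _ (fun _ hg => hg.1) hf u

/-- evaluation of `S_u` at `r` points -/
noncomputable def evm {r : ℕ} (u : X.Pic) (x : Fin r → (Fin X.N → ℂ)) :
    X.gr u →ₗ[ℂ] (Fin r → ℂ) :=
  (LinearMap.pi fun i => (aeval (x i) : X.S →ₐ[ℂ] ℂ).toLinearMap).comp (X.gr u).subtype

theorem evm_apply {r : ℕ} (u : X.Pic) (x : Fin r → (Fin X.N → ℂ)) (f : X.gr u) (i : Fin r) :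
    X.evm u x f i = eval (x i) f.1 := by
  simp only [evm, LinearMap.comp_apply, LinearMap.pi_apply, Submodule.subtype_apply,
    AlgHom.toLinearMap_apply]
  rfl

instance (u : X.Pic) : FiniteDimensional ℂ (X.gr u) := by
  have : Finite {m : Fin X.N →₀ ℕ // Finsupp.weight X.deg m = u} :=
    (X.finite_monomials u).to_subtype
  let L : X.gr u →ₗ[ℂ] ({m : Fin X.N →₀ ℕ // Finsupp.weight X.deg m = u} → ℂ) :=
    (LinearMap.pi fun m => lcoeff ℂ m.1).comp (X.gr u).subtype
  refine FiniteDimensional.of_injective L ?_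
  rw [← LinearMap.ker_eq_bot, LinearMap.ker_eq_bot']
  intro f hf
  apply Subtype.ext
  ext m
  by_cases hm : Finsupp.weight X.deg m = u
  · exact congrFun hf ⟨m, hm⟩
  · rw [Submodule.coe_zero, coeff_zero]
    exact f.2.coeff_eq_zero m hm

theorem hf_ptIdeal {r : ℕ} (x : Fin r → X.Pt) (u : X.Pic) :
    X.hf (X.ptIdeal x) u = Module.finrank ℂ (LinearMap.range (X.evm u fun i => (x i).1)) := by
  have h : ((X.ptIdeal x).restrictScalars ℂ).comap (X.gr u).subtype =
      LinearMap.ker (X.evm u fun i => (x i).1) := by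
    ext f
    rw [Submodule.mem_comap, LinearMap.mem_ker, Submodule.subtype_apply,
      Submodule.restrictScalars_mem, X.mem_ptIdeal_iff x f.2]
    constructor
    · intro h
      funext i
      rw [evm_apply]; exact h i
    · intro h i
      have := congrFun h i
      rwa [evm_apply] at this
  unfold hf
  rw [h]
  exact (LinearMap.quotKerEquivRange _).finrank_eq

theorem hf_ptIdeal_le {r : ℕ} (x : Fin r → X.Pt) (u : X.Pic) : X.hf (X.ptIdeal x) u ≤ r := by
  rw [hf_ptIdeal]
  refine (Submodule.finrank_le _).trans ?_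
  simp

theorem hf_le (J : Ideal X.S) (u : X.Pic) : X.hf J u ≤ Module.finrank ℂ (X.gr u) :=
  Submodule.finrank_quotient_le _

theorem bdd (r : ℕ) (u : X.Pic) :
    BddAbove (Set.range fun x : Fin r → X.Pt => X.hf (X.ptIdeal x) u) :=
  ⟨r, by rintro _ ⟨x, rfl⟩; exact X.hf_ptIdeal_le x u⟩

theorem le_hgen {r : ℕ} (x : Fin r → X.Pt) (u : X.Pic) :
    X.hf (X.ptIdeal x) u ≤ X.hgen r u :=
  le_ciSup (X.bdd r u) x

/-- points with nonzero coordinates are points of `X` -/
def torusPt (x : Fin X.N → ℂ) (hx : ∀ i, x i ≠ 0) : X.Pt :=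
  ⟨x, ∏ i, MvPolynomial.X i, X.prod_mem, by
    rw [map_prod]
    exact Finset.prod_ne_zero_iff.2 fun i _ => by rw [eval_X]; exact hx i⟩

instance : Nonempty X.Pt := ⟨X.torusPt (fun _ => 1) fun _ => one_ne_zero⟩

theorem hgen_le (r : ℕ) (u : X.Pic) : X.hgen r u ≤ r :=
  ciSup_le fun x => X.hf_ptIdeal_le x u

theorem hgen_le' (r : ℕ) (u : X.Pic) : X.hgen r u ≤ Module.finrank ℂ (X.gr u) :=
  ciSup_le fun _ => X.hf_le _ u

/-- `r` points with the generic Hilbert function give a point of the Hilbert scheme. -/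
noncomputable def ptHilb {r : ℕ} (x : Fin r → X.Pt) (h : ∀ u, X.hf (X.ptIdeal x) u = X.hgen r u) :
    X.Hilb (X.hgen r) := ⟨X.ptIdeal x, X.ptIdeal_homog x, h⟩

theorem component_monomial_mul (a : Fin X.N →₀ ℕ) (f : X.S) (u : X.Pic) :
    weightedHomogeneousComponent X.deg (u + Finsupp.weight X.deg a) (monomial a (1 : ℂ) * f) =
      monomial a (1 : ℂ) * weightedHomogeneousComponent X.deg u f := by
  classical
  ext m
  rw [coeff_weightedHomogeneousComponent, coeff_monomial_mul', coeff_monomial_mul',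
    coeff_weightedHomogeneousComponent]
  by_cases ham : a ≤ m
  · rw [if_pos ham, if_pos ham]
    have h1 : Finsupp.weight X.deg m =
        Finsupp.weight X.deg (m - a) + Finsupp.weight X.deg a := by
      rw [← map_add, tsub_add_cancel_of_le ham]
    rw [h1]
    by_cases h2 : Finsupp.weight X.deg (m - a) = u
    · rw [if_pos h2, if_pos (by rw [h2])]
    · rw [if_neg h2, if_neg (fun h => h2 (add_right_cancel h)), mul_zero]
  · rw [if_neg ham, if_neg ham]
    split_ifs <;> rfl

theorem prod_X_eq : (∏ i, MvPolynomial.X i : X.S) =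
    monomial (Finsupp.equivFunOnFinite.symm fun _ => 1) 1 := by
  rw [monomial_eq, map_one, one_mul, Finsupp.prod_fintype _ _ (fun i => pow_zero _)]
  simp

theorem ptIdeal_saturated {r : ℕ} (x : Fin r → X.Pt) (hx : ∀ i j, (x i).1 j ≠ 0) :
    X.Saturated (X.ptIdeal x) := by
  rintro f ⟨k, hk⟩
  have h1 := hk _ (Ideal.pow_mem_pow X.prod_mem k)
  have h2 : ((∏ i, MvPolynomial.X i : X.S)) ^ k =
      monomial (k • Finsupp.equivFunOnFinite.symm fun _ => 1) 1 := by
    rw [prod_X_eq, monomial_pow, one_pow]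
  have key : ∀ u, weightedHomogeneousComponent X.deg u f ∈ X.ptIdeal x := by
    intro u
    rw [X.mem_ptIdeal_iff x (weightedHomogeneousComponent_mem _ _ _)]
    intro i
    have h3 := X.ptIdeal_homog x _ h1
      (u + Finsupp.weight X.deg (k • Finsupp.equivFunOnFinite.symm fun _ => 1))
    rw [h2, component_monomial_mul, ← h2] at h3
    have h4 := X.eval_of_mem_ptIdeal x h3 i
    rw [map_mul, map_pow, map_prod] at h4
    refine (mul_eq_zero.1 h4).resolve_left (pow_ne_zero _ ?_)
    exact Finset.prod_ne_zero_iff.2 fun j _ => by rw [eval_X]; exact hx i j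
  rw [← sum_weightedHomogeneousComponent X.deg f,
    finsum_eq_sum _ (weightedHomogeneousComponent_finsupp f)]
  exact Ideal.sum_mem _ fun u _ => key u

end CoxData

end Pool.Agent.H78.VSP
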