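import Pool.Agent.H78.VSP.Topo

set_option autoImplicit false

open MvPolynomial

namespace Pool.Agent.H78.VSP.CoxData

variable (X : CoxData) {r : ℕ} {D : Finset X.Pic}

/-- matrices act on frames -/
noncomputable def act (G : {u // u ∈ D} → Fin r → Fin r → ℂ) (φ : X.Mon D × Fin r → ℂ) :
    X.Mon D × Fin r → ℂ := fun s => ∑ l, G ⟨_, s.1.2⟩ s.2 l * φ (s.1, l)

/-- precomposition of polynomials with `act G` -/
noncomputable def actP (G : {u // u ∈ D} → Fin r → Fin r → ℂ) :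
    MvPolynomial (X.Mon D × Fin r) ℂ →ₐ[ℂ] MvPolynomial (X.Mon D × Fin r) ℂ :=
  aeval fun s => ∑ l, C (G ⟨_, s.1.2⟩ s.2 l) * MvPolynomial.X (s.1, l)

theorem eval_actP (G : {u // u ∈ D} → Fin r → Fin r → ℂ) (φ : X.Mon D × Fin r → ℂ)
    (p : MvPolynomial (X.Mon D × Fin r) ℂ) : eval φ (X.actP G p) = eval (X.act G φ) p := by
  have : ((aeval φ : _ →ₐ[ℂ] ℂ).comp (X.actP G)) = aeval (X.act G φ) := by
    apply algHom_ext
    intro s
    rw [AlgHom.comp_apply, actP, aeval_X, aeval_X, map_sum]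
    refine Finset.sum_congr rfl fun l _ => ?_
    rw [map_mul, aeval_X, algHom_C]
    rfl
  exact DFunLike.congr_fun this p

/-- the composed matrices -/
noncomputable def mulG (G H : {u // u ∈ D} → Fin r → Fin r → ℂ) : {u // u ∈ D} → Fin r → Fin r → ℂ :=
  fun u j l => ∑ k, G u j k * H u k l

theorem act_act (G H : {u // u ∈ D} → Fin r → Fin r → ℂ) (φ : X.Mon D × Fin r → ℂ) :
    X.act G (X.act H φ) = X.act (X.mulG G H) φ := by
  funext s
  simp only [act, mulG, Finset.mul_sum, Finset.sum_mul]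
  rw [Finset.sum_comm]
  refine Finset.sum_congr rfl fun l _ => Finset.sum_congr rfl fun k _ => ?_
  ring

/-- the frame `Θ(t)` -/
noncomputable def Th (t : X.PV r D → ℂ) : X.Mon D × Fin r → ℂ := fun s => eval t (X.theta s)

theorem act_Th (G : {u // u ∈ D} → Fin r → Fin r → ℂ) (t : X.PV r D → ℂ) :
    X.act G (X.Th t) = X.Th (Sum.elim (fun p => t (Sum.inl p))
      fun p => ∑ k, G p.1 p.2.1 k * t (Sum.inr (p.1, k, p.2.2))) := by
  funext s
  simp only [act, Th, eval_theta, Finset.mul_sum, Sum.elim_inl, Sum.elim_inr, Finset.sum_mul]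
  rw [Finset.sum_comm]
  refine Finset.sum_congr rfl fun l _ => Finset.sum_congr rfl fun k _ => ?_
  ring

/-- `φ` is in the Zariski closure of the set of all `Θ(t)` -/
def Clos (φ : X.Mon D × Fin r → ℂ) : Prop :=
  ∀ p : MvPolynomial (X.Mon D × Fin r) ℂ, (∀ t, eval (X.Th t) p = 0) → eval φ p = 0

theorem Clos.act {φ : X.Mon D × Fin r → ℂ} (h : X.Clos φ) (G : {u // u ∈ D} → Fin r → Fin r → ℂ) :
    X.Clos (X.act G φ) := by
  intro p hp
  rw [← eval_actP]
  refine h _ fun t => ?_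
  rw [eval_actP, act_Th]
  exact hp _

theorem clos_Th (t : X.PV r D → ℂ) : X.Clos (X.Th t) := fun _ hp => hp t

/-- the natural frame of the ideal of points -/
noncomputable def natF (x : Fin r → (Fin X.N → ℂ)) : X.Mon D × Fin r → ℂ :=
  fun s => eval (x s.2) (monomial s.1.1 1)

theorem frm_natF (x : Fin r → (Fin X.N → ℂ)) {u : X.Pic} (hu : u ∈ D) {f : X.S} (hf : f ∈ X.gr u)
    (j : Fin r) : X.frm (X.natF x : X.Mon D × Fin r → ℂ) f j = eval (x j) f := by
  rw [frm_apply]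
  conv_rhs => rw [X.eq_sum_mon hu hf, map_sum]
  refine Finset.sum_congr rfl fun m _ => ?_
  rw [natF, eval_monomial, eval_monomial, one_mul]

theorem factor_of_frame {φ φ' : X.Mon D × Fin r → ℂ} {J : Ideal X.S} (h : X.IsFrame φ J)
    (h' : X.IsFrame φ' J) : ∃ G, φ = X.act G φ' := by
  rw [isFrame_iff] at h h'
  obtain ⟨G, hG⟩ := X.exists_factor φ φ' fun u hu f hf h0 => by
    rw [← h u hu f hf, h' u hu f hf]; exact h0
  exact ⟨G, funext fun s => hG s.1 s.2⟩

theorem isFrame_natF (x : Fin r → X.Pt) :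
    X.IsFrame (X.natF fun i => (x i).1 : X.Mon D × Fin r → ℂ) (X.ptIdeal x) := by
  rw [isFrame_iff]
  intro u hu f hf
  rw [X.mem_ptIdeal_iff x hf]
  constructor
  · intro h
    funext j
    rw [X.frm_natF _ hu hf]
    exact h j
  · intro h j
    rw [← X.frm_natF (fun i => (x i).1) hu hf, h]
    rfl

theorem natF_eq_Th (x : Fin r → (Fin X.N → ℂ)) : (X.natF x : X.Mon D × Fin r → ℂ) =
    X.Th (Sum.elim (fun p => x p.1 p.2) fun p => if p.2.1 = p.2.2 then 1 else 0) := by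
  funext s
  rw [Th, eval_theta, Finset.sum_eq_single s.2]
  · simp only [Sum.elim_inr, Sum.elim_inl, if_true, one_mul]
    rfl
  · intro b _ hb
    simp only [Sum.elim_inr]
    rw [if_neg (Ne.symm hb), zero_mul]
  · intro h; exact absurd (Finset.mem_univ _) h

theorem clos_of_frame_pt (x : Fin r → X.Pt) {φ : X.Mon D × Fin r → ℂ}
    (h : X.IsFrame φ (X.ptIdeal x)) : X.Clos φ := by
  obtain ⟨G, rfl⟩ := X.factor_of_frame h (X.isFrame_natF x)
  rw [natF_eq_Th]
  exact (X.clos_Th _).act X G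

theorem clos_of_mem_Slip {J : X.Hilb (X.hgen r)} (hJ : J ∈ X.Slip r D)
    {φ : X.Mon D × Fin r → ℂ} (h : X.IsFrame φ J.1) : X.Clos φ := by
  let t := X.topo r D (X.hgen r)
  let C : Set (X.Hilb (X.hgen r)) := {J | ∀ φ : X.Mon D × Fin r → ℂ, X.IsFrame φ J.1 → X.Clos φ}
  have hC : IsClosed C := by
    rw [← isOpen_compl_iff, isOpen_topo_iff]
    intro q hq
    have hq' : ¬ ∀ φ : X.Mon D × Fin r → ℂ, X.IsFrame φ q.1.2.1 → X.Clos φ := hq
    push Not at hq'
    obtain ⟨φ', hφ', hcl⟩ := hq'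
    obtain ⟨G, hG⟩ := X.factor_of_frame hφ' q.2
    have h0 : ¬ X.Clos q.1.1 := by
      intro hc
      apply hcl
      rw [hG]
      exact hc.act X G
    unfold Clos at h0
    push Not at h0
    obtain ⟨p, hp1, hp2⟩ := h0
    refine ⟨p, hp2, fun q' hq' hc => ?_⟩
    exact hq' (hc _ q'.2 p hp1)
  have h1 : X.Slip r D ⊆ C := by
    refine closure_minimal ?_ hC
    rintro J ⟨x, hx⟩ φ hφ
    rw [hx] at hφ
    exact X.clos_of_frame_pt x hφ
  exact h1 hJ φ h

end Pool.Agent.H78.VSP.CoxData
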