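import Pool.Agent.H78.VSP.Defs

set_option autoImplicit false

namespace Pool.Agent.H78.VSP

/-- If an open set meets every nonempty relatively open subset of `Y`, then it meets every
irreducible component of `Y` (Noetherian spaces). -/
theorem comp_meets {α : Type} (t : TopologicalSpace α) (hN : TopologicalSpace.NoetherianSpace α)
    {Y O : Set α}
    (h : ∀ V, IsOpen V → (V ∩ Y).Nonempty → (V ∩ O ∩ Y).Nonempty) {Z : Set α}
    (hZ : IsComp t Y Z) : (Z ∩ O).Nonempty := by
  classical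
  let W : Set α := O ∩ Y
  have hNW : TopologicalSpace.NoetherianSpace W := inferInstance
  have hfin : (irreducibleComponents W).Finite :=
    TopologicalSpace.NoetherianSpace.finite_irreducibleComponents
  let S : Finset (Set α) := hfin.toFinset.image fun C => closure (Subtype.val '' C)
  have hYW : Y ⊆ closure W := by
    intro y hy
    rw [mem_closure_iff]
    intro V hV hyV
    obtain ⟨z, ⟨hzV, hzO⟩, hzY⟩ := h V hV ⟨y, hyV, hy⟩
    exact ⟨z, hzV, hzO, hzY⟩
  have hcl : closure W ⊆ ⋃₀ (S : Set (Set α)) := by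
    refine closure_minimal ?_ ?_
    · intro z hz
      refine ⟨closure (Subtype.val '' (irreducibleComponent (⟨z, hz⟩ : W))), ?_, ?_⟩
      · rw [Finset.mem_coe, Finset.mem_image]
        refine ⟨_, ?_, rfl⟩
        rw [Set.Finite.mem_toFinset]
        exact irreducibleComponent_mem_irreducibleComponents _
      · exact subset_closure ⟨⟨z, hz⟩, mem_irreducibleComponent, rfl⟩
    · rw [Set.sUnion_eq_biUnion]
      refine Set.Finite.isClosed_biUnion (Finset.finite_toSet S) ?_
      intro C hC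
      rw [Finset.mem_coe, Finset.mem_image] at hC
      obtain ⟨C', -, rfl⟩ := hC
      exact isClosed_closure
  obtain ⟨C, hC, hZC⟩ := (isIrreducible_iff_sUnion_isClosed.1 hZ.1.1) S (by
      intro C hC
      rw [Finset.mem_image] at hC
      obtain ⟨C', -, rfl⟩ := hC
      exact isClosed_closure) ((hZ.1.2.trans hYW).trans hcl)
  rw [Finset.mem_image] at hC
  obtain ⟨C', hC', rfl⟩ := hC
  rw [Set.Finite.mem_toFinset] at hC'
  have hirr : IsIrreducible (Subtype.val '' C' : Set α) :=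
    hC'.1.image _ continuous_subtype_val.continuousOn
  have hsub : (Subtype.val '' C' : Set α) ⊆ Y := by
    rintro _ ⟨z, -, rfl⟩
    exact z.2.2
  have hirr2 : IsIrreducible (closure (Subtype.val '' C' : Set α) ∩ Y) := by
    refine ⟨?_, ?_⟩
    · obtain ⟨z, hz⟩ := hirr.1
      exact ⟨z, subset_closure hz, hsub hz⟩
    · have h1 := hirr.2
      intro U V hU hV hU' hV'
      obtain ⟨x, ⟨hx1, hx2⟩, hx3⟩ := hU'
      obtain ⟨y, ⟨hy1, hy2⟩, hy3⟩ := hV'
      obtain ⟨x', hx'⟩ := mem_closure_iff.1 hx1 U hU hx3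
      obtain ⟨y', hy'⟩ := mem_closure_iff.1 hy1 V hV hy3
      obtain ⟨z, hz1, hz2⟩ := h1 U V hU hV ⟨x', hx'.2, hx'.1⟩ ⟨y', hy'.2, hy'.1⟩
      exact ⟨z, ⟨subset_closure hz1, hsub hz1⟩, hz2⟩
  have hle := hZ.2 ⟨hirr2, Set.inter_subset_right⟩ (Set.subset_inter hZC hZ.1.2)
  obtain ⟨z, hz⟩ := hirr.1
  refine ⟨z, hle ⟨subset_closure hz, hsub hz⟩, ?_⟩
  obtain ⟨z', -, rfl⟩ := hz
  exact z'.2.1

/-- the general point of an irreducible set cannot satisfy both `P` and `¬ P` -/
theorem generally_not {α : Type} (t : TopologicalSpace α) {Z : Set α} (hZ : IsIrreducible Z)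
    {P : α → Prop} (h : Generally t Z P) : ¬ Generally t Z fun J => ¬ P J := by
  rintro ⟨O', hO', h1', h2'⟩
  obtain ⟨O, hO, h1, h2⟩ := h
  obtain ⟨z, hz, hz1, hz2⟩ := hZ.2 O O' hO hO' h1 h1'
  exact h2' z ⟨hz, hz2⟩ (h2 z ⟨hz, hz1⟩)

end Pool.Agent.H78.VSP
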