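import Pool.Agent.H78.VSP.Final

set_option autoImplicit false

open MvPolynomial

namespace Pool.Agent.H78.VSP

theorem eval_smul_of_homog {σ : Type} {φ : MvPolynomial σ ℂ} {n : ℕ} (h : φ.IsHomogeneous n)
    (c : ℂ) (x : σ → ℂ) : eval (fun i => c * x i) φ = c ^ n * eval x φ := by
  rw [eval_eq, eval_eq, Finset.mul_sum]
  refine Finset.sum_congr rfl fun d hd => ?_
  have h1 : d.degree = n := by
    have := h (mem_support_iff.1 hd)
    rwa [Finsupp.degree_eq_weight_one]
  simp only [mul_pow]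
  rw [Finset.prod_mul_distrib, Finset.prod_pow_eq_pow_sum]
  rw [← h1, Finsupp.degree_apply]
  ring

theorem exists_scale {σ : Type} (p : MvPolynomial σ ℂ) (d : ℕ) (x : σ → ℂ)
    (h : eval x (homogeneousComponent d p) ≠ 0) :
    ∃ c : ℂ, c ≠ 0 ∧ eval (fun i => c * x i) p ≠ 0 := by
  let P : Polynomial ℂ := ∑ i ∈ Finset.range (p.totalDegree + 1),
    Polynomial.C (eval x (homogeneousComponent i p)) * Polynomial.X ^ i
  have hP : ∀ c : ℂ, P.eval c = eval (fun i => c * x i) p := by
    intro c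
    conv_rhs => rw [← sum_homogeneousComponent p, map_sum]
    rw [Polynomial.eval_finsetSum]
    refine Finset.sum_congr rfl fun i _ => ?_
    rw [eval_smul_of_homog (homogeneousComponent_isHomogeneous i p), Polynomial.eval_mul,
      Polynomial.eval_C, Polynomial.eval_pow, Polynomial.eval_X, mul_comm]
  have hd : d < p.totalDegree + 1 := by
    by_contra hc
    apply h
    rw [homogeneousComponent_eq_zero d p (by omega), map_zero]
  have hP0 : P ≠ 0 := by
    intro h0
    have h1 : P.coeff d = eval x (homogeneousComponent d p) := by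
      rw [Polynomial.finsetSum_coeff, Finset.sum_eq_single d]
      · rw [Polynomial.coeff_C_mul, Polynomial.coeff_X_pow_self, mul_one]
      · intro b _ hb
        rw [Polynomial.coeff_C_mul, Polynomial.coeff_X_pow, if_neg (Ne.symm hb), mul_zero]
      · intro hn; exact absurd (Finset.mem_range.2 hd) hn
    rw [h0, Polynomial.coeff_zero] at h1
    exact h h1.symm
  have h2 : Polynomial.X * P ≠ 0 := mul_ne_zero Polynomial.X_ne_zero hP0
  obtain ⟨c, hc⟩ : ∃ c, (Polynomial.X * P).eval c ≠ 0 := by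
    by_contra hc
    push Not at hc
    exact h2 (Polynomial.funext fun c => by rw [hc c, Polynomial.eval_zero])
  rw [Polynomial.eval_mul, Polynomial.eval_X, hP] at hc
  exact ⟨c, left_ne_zero_of_mul hc, right_ne_zero_of_mul hc⟩

namespace CoxData

variable (X : CoxData) {r : ℕ} {D : Finset X.Pic} {v : X.Pic}

theorem smul_mem_sec {k : ℕ} {F : Module.Dual ℂ (X.gr v)} (h : F ∈ X.sec k v) (c : ℂ) :
    c • F ∈ X.sec k v := by
  intro p hp
  let p' : MvPolynomial (X.gr v) ℂ := aeval (fun g => C c * MvPolynomial.X g) p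
  have h1 : ∀ G : Module.Dual ℂ (X.gr v), eval (fun g => G g) p' = eval (fun g => (c • G) g) p := by
    intro G
    have : ((aeval (fun g => G g) : _ →ₐ[ℂ] ℂ).comp
        (aeval (fun g : X.gr v => (C c * MvPolynomial.X g : MvPolynomial (X.gr v) ℂ)))) =
        aeval (fun g => (c • G) g) := by
      apply algHom_ext
      intro g
      rw [AlgHom.comp_apply, aeval_X, aeval_X, map_mul, aeval_X, algHom_C]
      rfl
    exact DFunLike.congr_fun this p
  rw [← h1]
  refine h p' fun x d => ?_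
  rw [h1, Finset.smul_sum]
  have h2 := hp x fun i => c * d i
  simp only [← smul_smul] at h2 ⊢
  exact h2

theorem smul_mem_sec_iff {k : ℕ} {F : Module.Dual ℂ (X.gr v)} {c : ℂ} (hc : c ≠ 0) :
    c • F ∈ X.sec k v ↔ F ∈ X.sec k v := by
  refine ⟨fun h => ?_, fun h => X.smul_mem_sec h c⟩
  have := X.smul_mem_sec h c⁻¹
  rwa [smul_smul, inv_mul_cancel₀ hc, one_smul] at this

theorem borderRank_smul {F : Module.Dual ℂ (X.gr v)} {c : ℂ} (hc : c ≠ 0) :
    X.borderRank (c • F) = X.borderRank F := by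
  unfold borderRank
  congr 1
  ext k
  exact X.smul_mem_sec_iff hc

theorem Ann_smul {F : Module.Dual ℂ (X.gr v)} {c : ℂ} (hc : c ≠ 0) :
    X.Ann (c • F) = X.Ann F := by
  ext g
  simp only [Ann, Set.mem_ofPred_eq, LinearMap.smul_apply, smul_eq_mul, mul_eq_zero, hc, false_or]

theorem bVSP_smul (r : ℕ) (D : Finset X.Pic) {F : Module.Dual ℂ (X.gr v)} {c : ℂ} (hc : c ≠ 0) :
    X.bVSP r D (c • F) = X.bVSP r D F := by
  unfold bVSP
  rw [X.Ann_smul hc]

/-- a property invariant under scaling which holds for general `F` holds on an open cone -/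
theorem exists_homog (P : Module.Dual ℂ (X.gr v) → Prop)
    (hP : ∀ F (c : ℂ), c ≠ 0 → P (c • F) → P F)
    {k : ℕ} {p : MvPolynomial (X.gr v) ℂ} (hp : ∃ F ∈ X.sec k v, eval (fun g => F g) p ≠ 0)
    (h : ∀ F ∈ X.sec k v, eval (fun g => F g) p ≠ 0 → P F) :
    ∃ (d : ℕ) (p' : MvPolynomial (X.gr v) ℂ), p'.IsHomogeneous d ∧
      (∃ F ∈ X.sec k v, eval (fun g => F g) p' ≠ 0) ∧
      ∀ F ∈ X.sec k v, eval (fun g => F g) p' ≠ 0 → P F := by
  obtain ⟨F, hF, hFp⟩ := hp
  obtain ⟨d, hd⟩ : ∃ d, eval (fun g => F g) (homogeneousComponent d p) ≠ 0 := by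
    by_contra hc
    push Not at hc
    apply hFp
    rw [← sum_homogeneousComponent p, map_sum]
    exact Finset.sum_eq_zero fun i _ => hc i
  refine ⟨d, _, homogeneousComponent_isHomogeneous d p, ⟨F, hF, hd⟩, fun G hG hGp => ?_⟩
  obtain ⟨c, hc, hcp⟩ := exists_scale p d _ hGp
  exact hP G c hc (h (c • G) (X.smul_mem_sec hG c) hcp)

end CoxData

end Pool.Agent.H78.VSP
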