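import Pool.Agent.H78.VSP.Main

set_option autoImplicit false

open MvPolynomial

namespace Pool.Agent.H78.VSP.CoxData

variable (X : CoxData) {r : ℕ} {D : Finset X.Pic} {v : X.Pic}

/-- variables: frames and row vectors -/
abbrev EV (r : ℕ) (D : Finset X.Pic) : Type := (X.Mon D × Fin r) ⊕ Fin r

/-- parametrization of (frame, row vector) -/
noncomputable def theta' : X.EV r D → MvPolynomial (X.PV r D ⊕ Fin r) ℂ :=
  Sum.elim (fun s => rename Sum.inl (X.theta s)) (fun j => MvPolynomial.X (Sum.inr j))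

theorem eval_theta' (t : X.PV r D ⊕ Fin r → ℂ) (q : MvPolynomial (X.EV r D) ℂ) :
    eval t (aeval X.theta' q) =
      eval (Sum.elim (X.Th fun s => t (Sum.inl s)) fun j => t (Sum.inr j)) q := by
  have : ((aeval t : _ →ₐ[ℂ] ℂ).comp (aeval X.theta')) =
      aeval (Sum.elim (X.Th fun s => t (Sum.inl s)) fun j => t (Sum.inr j)) := by
    apply algHom_ext
    rintro (s | j)
    · rw [AlgHom.comp_apply, aeval_X, aeval_X]
      simp only [theta', Sum.elim_inl, aeval_rename]
      rfl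
    · rw [AlgHom.comp_apply, aeval_X, aeval_X]
      simp only [theta', Sum.elim_inr, aeval_X]
  exact DFunLike.congr_fun this q

/-- monomials of degree `v` -/
abbrev MV (v : X.Pic) : Type := {m : Fin X.N →₀ ℕ // Finsupp.weight X.deg m = v}

/-- a monomial of degree `v ∈ D` as a monomial with degree in `D` -/
def toMon (hv : v ∈ D) (m : X.MV v) : X.Mon D := ⟨m.1, by rw [m.2]; exact hv⟩

/-- the coordinates of the product row vector * frame -/
noncomputable def psi (hv : v ∈ D) (m : X.MV v) : MvPolynomial (X.EV r D) ℂ :=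
  ∑ j, MvPolynomial.X (Sum.inr j) * MvPolynomial.X (Sum.inl (X.toMon hv m, j))

theorem eval_psi (hv : v ∈ D) (m : X.MV v) (y : X.EV r D → ℂ) :
    eval y (X.psi hv m) = ∑ j, y (Sum.inr j) * y (Sum.inl (X.toMon hv m, j)) := by
  rw [psi, map_sum]
  refine Finset.sum_congr rfl fun j _ => ?_
  rw [map_mul, eval_X, eval_X]

/-- coordinates of a functional on `S_v` -/
noncomputable def coords (F : Module.Dual ℂ (X.gr v)) (m : X.MV v) : ℂ :=
  F ⟨monomial m.1 1, X.monomial_mem m.2 1⟩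

theorem dual_ext {F G : Module.Dual ℂ (X.gr v)} (h : X.coords F = X.coords G) : F = G := by
  apply LinearMap.ext
  rintro ⟨f, hf⟩
  have h1 : (⟨f, hf⟩ : X.gr v) = ∑ m : f.support, coeff m.1 f •
      (⟨monomial m.1 1, X.monomial_mem (hf (mem_support_iff.1 m.2)) 1⟩ : X.gr v) := by
    apply Subtype.ext
    rw [AddSubmonoidClass.coe_finsetSum]
    simp only [Submodule.coe_smul, smul_monomial, smul_eq_mul, mul_one]
    conv_lhs => rw [← support_sum_monomial_coeff f]
    exact (Finset.sum_coe_sort f.support fun m => monomial m (coeff m f)).symm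
  rw [h1, map_sum, map_sum]
  refine Finset.sum_congr rfl fun m _ => ?_
  rw [map_smul, map_smul]
  congr 1
  exact congrFun h ⟨m.1, hf (mem_support_iff.1 m.2)⟩

/-- the functional `f ↦ φ(f)_j` on `S_v` -/
noncomputable def rowL (φ : X.Mon D × Fin r → ℂ) (v : X.Pic) (j : Fin r) :
    Module.Dual ℂ (X.gr v) :=
  (LinearMap.proj j).comp ((X.frm φ).comp (X.gr v).subtype)

theorem rowL_apply (φ : X.Mon D × Fin r → ℂ) (j : Fin r) (f : X.gr v) :
    X.rowL φ v j f = X.frm φ f.1 j := rfl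

theorem exists_row (hv : v ∈ D) {φ : X.Mon D × Fin r → ℂ} {J : Ideal X.S} (hφ : X.IsFrame φ J)
    {F : Module.Dual ℂ (X.gr v)} (hF : (J : Set X.S) ⊆ X.Ann F) :
    ∃ c : Fin r → ℂ, ∀ m : X.MV v, X.coords F m = ∑ j, c j * φ (X.toMon hv m, j) := by
  rw [isFrame_iff] at hφ
  have h1 : ⨅ j, LinearMap.ker (X.rowL φ v j) ≤ LinearMap.ker F := by
    intro f hf
    rw [Submodule.mem_iInf] at hf
    have h2 : X.frm φ f.1 = 0 := funext fun l => hf l
    have h3 := hF ((hφ v hv f.1 f.2).2 h2) 1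
    simp only [mul_one] at h3
    rw [LinearMap.mem_ker]
    convert h3
    exact (weightedHomogeneousComponent_eq_self f.2).symm
  obtain ⟨c, hc⟩ := (Submodule.mem_span_range_iff_exists_fun ℂ).1
    (mem_span_of_iInf_ker_le_ker h1)
  refine ⟨c, fun m => ?_⟩
  have h4 := LinearMap.congr_fun hc ⟨monomial m.1 1, X.monomial_mem m.2 1⟩
  simp only [LinearMap.sum_apply, LinearMap.smul_apply, rowL_apply, smul_eq_mul] at h4
  rw [coords, ← h4]
  refine Finset.sum_congr rfl fun j _ => ?_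
  rw [← X.frm_monomial φ (X.toMon hv m) j]
  rfl

theorem ann_of_row (hv : v ∈ D) {φ : X.Mon D × Fin r → ℂ} {J : Ideal X.S} (hφ : X.IsFrame φ J)
    (hJ : ∀ f ∈ J, ∀ u, weightedHomogeneousComponent X.deg u f ∈ J)
    {F : Module.Dual ℂ (X.gr v)} (c : Fin r → ℂ)
    (hc : ∀ m : X.MV v, X.coords F m = ∑ j, c j * φ (X.toMon hv m, j)) :
    (J : Set X.S) ⊆ X.Ann F := by
  have h1 : F = ∑ j, c j • X.rowL φ v j := by
    apply X.dual_ext
    funext m
    rw [hc m]
    simp only [coords, LinearMap.sum_apply, LinearMap.smul_apply, rowL_apply, smul_eq_mul]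
    refine Finset.sum_congr rfl fun j _ => ?_
    rw [← X.frm_monomial φ (X.toMon hv m) j]
    rfl
  rw [isFrame_iff] at hφ
  intro f hf k
  have h2 : weightedHomogeneousComponent X.deg v (f * k) ∈ J := hJ _ (J.mul_mem_right k hf) v
  have h3 := (hφ v hv _ (weightedHomogeneousComponent_mem _ _ _)).1 h2
  rw [h1]
  simp only [LinearMap.sum_apply, LinearMap.smul_apply, rowL_apply, smul_eq_mul]
  refine Finset.sum_eq_zero fun j _ => ?_
  rw [h3]
  simp

theorem density (hv : v ∈ D) {w : MvPolynomial (X.PV r D) ℂ}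
    (hw : ∀ t : X.PV r D → ℂ, eval t w ≠ 0 → (∀ l i, t (Sum.inl (l, i)) ≠ 0) ∧
      (∀ u : {u // u ∈ D}, Matrix.det (Matrix.of fun j l => t (Sum.inr (u, j, l))) ≠ 0) ∧
      ∀ x : Fin r → X.Pt, (∀ l i, (x l).1 i = t (Sum.inl (l, i))) →
        ∀ u, X.hf (X.ptIdeal x) u = X.hgen r u)
    {b : MvPolynomial (X.Mon D × Fin r) ℂ} (hb0 : aeval X.theta b ≠ 0)
    (hb : ∀ y : X.Mon D × Fin r → ℂ,
      (∀ q : MvPolynomial (X.Mon D × Fin r) ℂ, aeval X.theta q = 0 → eval y q = 0) →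
      eval y b ≠ 0 → ∃ t : X.PV r D → ℂ, eval t w ≠ 0 ∧ ∀ s, eval t (X.theta s) = y s) :
    ∃ a : MvPolynomial (X.MV v) ℂ, aeval X.theta' (aeval (X.psi hv (r := r)) a) ≠ 0 ∧
      ∀ F : Module.Dual ℂ (X.gr v), eval (X.coords F) a ≠ 0 →
        ∀ O : Set (X.Hilb (X.hgen r)), @IsOpen _ (X.topo r D _) O →
          (O ∩ X.bVSP r D F).Nonempty → (O ∩ X.Ob b ∩ X.bVSP r D F).Nonempty := by
  let I : Ideal (MvPolynomial (X.EV r D) ℂ) := RingHom.ker (aeval X.theta').toRingHom
  have hI : ∀ q, q ∈ I ↔ aeval X.theta' q = 0 := fun q => Iff.rfl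
  have : I.IsPrime := RingHom.ker_isPrime _
  have hbI : rename Sum.inl b ∉ I := by
    rw [hI, aeval_rename]
    have h1 : (aeval (X.theta' ∘ Sum.inl) b : MvPolynomial (X.PV r D ⊕ Fin r) ℂ) =
        rename Sum.inl (aeval X.theta b) := by
      rw [show (X.theta' ∘ Sum.inl : X.Mon D × Fin r → MvPolynomial (X.PV r D ⊕ Fin r) ℂ) =
        fun s => rename Sum.inl (X.theta s) from rfl]
      have : (aeval (fun s => rename Sum.inl (X.theta s)) :
          MvPolynomial (X.Mon D × Fin r) ℂ →ₐ[ℂ] MvPolynomial (X.PV r D ⊕ Fin r) ℂ) =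
          (rename Sum.inl).comp (aeval X.theta) := by
        apply algHom_ext
        intro s
        rw [AlgHom.comp_apply, aeval_X, aeval_X]
      exact DFunLike.congr_fun this b
    rw [h1]
    intro h0
    exact hb0 (rename_injective _ Sum.inl_injective (h0.trans (map_zero _).symm))
  obtain ⟨a, ha1, ha2⟩ := Pool.Agent.H54.GenericDensity.generic_density I (X.psi hv)
    (rename Sum.inl b) hbI
  refine ⟨a, fun h0 => ha1 ((hI _).2 h0), ?_⟩
  rintro F hF O hO ⟨J, hJO, hJS, hJA⟩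
  obtain ⟨φ, hφ⟩ := X.exists_frame D J
  obtain ⟨q, hq1, hq2⟩ := (X.isOpen_topo_iff O).1 hO ⟨(φ, J), hφ⟩ hJO
  obtain ⟨c, hc⟩ := X.exists_row hv hφ hJA
  have hcl := X.clos_of_mem_Slip hJS hφ
  -- the point (φ, c)
  have hy : Sum.elim φ c ∈ zeroLocus ℂ I := by
    intro p hp
    let pc : MvPolynomial (X.Mon D × Fin r) ℂ := aeval (Sum.elim MvPolynomial.X fun j => C (c j)) p
    have hpc : ∀ φ' : X.Mon D × Fin r → ℂ, eval φ' pc = eval (Sum.elim φ' c) p := by
      intro φ'
      have : ((aeval φ' : _ →ₐ[ℂ] ℂ).comp (aeval (Sum.elim MvPolynomial.X fun j => C (c j)) :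
          MvPolynomial (X.EV r D) ℂ →ₐ[ℂ] MvPolynomial (X.Mon D × Fin r) ℂ)) =
          aeval (Sum.elim φ' c) := by
        apply algHom_ext
        rintro (s | j)
        · rw [AlgHom.comp_apply, aeval_X, aeval_X, Sum.elim_inl, Sum.elim_inl, aeval_X]
        · rw [AlgHom.comp_apply, aeval_X, aeval_X, Sum.elim_inr, Sum.elim_inr, algHom_C]
          rfl
      exact DFunLike.congr_fun this p
    have h2 := hcl pc fun t => by
      rw [hpc]
      have h3 := X.eval_theta' (Sum.elim t c) p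
      rw [(hI p).1 hp, map_zero] at h3
      exact h3.symm
    rw [hpc] at h2
    exact h2
  have hya : eval (fun m => eval (Sum.elim φ c) (X.psi hv m)) a ≠ 0 := by
    convert hF using 2
    congr 1
    funext m
    rw [eval_psi, hc m]
    rfl
  have hyq : eval (Sum.elim φ c) (rename Sum.inl q) ≠ 0 := by
    rw [eval_rename]
    exact hq1
  obtain ⟨y', hy'I, hy'ψ, hy'q, hy'b⟩ := ha2 _ hy hya _ hyq
  rw [eval_rename] at hy'q hy'b
  have hcl' : ∀ p : MvPolynomial (X.Mon D × Fin r) ℂ, aeval X.theta p = 0 →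
      eval (y' ∘ Sum.inl) p = 0 := by
    intro p hp
    have h4 : rename Sum.inl p ∈ I := by
      rw [hI]
      refine MvPolynomial.funext fun t => ?_
      rw [eval_theta', eval_rename, map_zero]
      show eval (X.Th fun s => t (Sum.inl s)) p = 0
      rw [eval_Th, hp, map_zero]
    have h5 := hy'I _ h4
    rw [aeval_rename] at h5
    exact h5
  obtain ⟨t, ht, hty⟩ := hb _ hcl' hy'b
  obtain ⟨x, -, hx1, hx2, hx3⟩ := X.good_pt hw t ht
  have hTh : X.Th t = y' ∘ Sum.inl := funext hty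
  rw [hTh] at hx3
  refine ⟨X.ptHilb x hx2, ⟨?_, ?_⟩, ?_, ?_⟩
  · exact hq2 ⟨(y' ∘ Sum.inl, X.ptHilb x hx2), hx3⟩ hy'q
  · refine ⟨y' ∘ Sum.inl, hx3, fun _ j l => if j = l then 1 else 0, ?_⟩
    convert hy'b using 2
    congr 1
    funext s
    simp [act]
  · exact @subset_closure _ (X.topo r D _) _ _ ⟨x, rfl⟩
  · refine X.ann_of_row hv hx3 (X.ptHilb x hx2).2.1 (fun j => y' (Sum.inr j)) fun m => ?_
    have h6 := hy'ψ m
    rw [eval_psi, eval_psi] at h6
    rw [hc m]
    exact h6.symm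

end Pool.Agent.H78.VSP.CoxData
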