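import Pool.Agent.H78.VSP.Secant

set_option autoImplicit false

open MvPolynomial

namespace Pool.Agent.H78.VSP.CoxData

variable (X : CoxData) {r : ℕ} {D : Finset X.Pic} {v : X.Pic}

theorem sig_ne_zero (hv : v ∈ D) {a : MvPolynomial (X.MV v) ℂ}
    (h : aeval X.theta' (aeval (X.psi hv (r := r)) a) ≠ 0) : aeval (X.sig r v) a ≠ 0 := by
  obtain ⟨t, ht⟩ : ∃ t, eval t (aeval X.theta' (aeval (X.psi hv (r := r)) a)) ≠ 0 := by
    by_contra hc
    push Not at hc
    exact h (MvPolynomial.funext fun t => by rw [hc t, map_zero])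
  have hev : ∀ y : X.EV r D → ℂ, eval y (aeval (X.psi hv (r := r)) a) =
      eval (fun m => eval y (X.psi hv m)) a := by
    intro y
    have : ((aeval y : _ →ₐ[ℂ] ℂ).comp (aeval (X.psi hv (r := r)))) =
        aeval (fun m => eval y (X.psi hv m)) := by
      apply algHom_ext
      intro s
      rw [AlgHom.comp_apply, aeval_X, aeval_X]
      rfl
    exact DFunLike.congr_fun this a
  rw [eval_theta', hev] at ht
  let c : Fin r → ℂ := fun l => ∑ j, t (Sum.inr j) * t (Sum.inl (Sum.inr (⟨v, hv⟩, j, l)))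
  intro h0
  apply ht
  have h1 : (fun m => eval (Sum.elim (X.Th fun s => t (Sum.inl s)) fun j => t (Sum.inr j))
      (X.psi hv m)) = fun m => eval (Sum.elim (fun p => t (Sum.inl (Sum.inl p))) c)
        (X.sig r v m) := by
    funext m
    rw [eval_psi, eval_sig]
    simp only [Sum.elim_inl, Sum.elim_inr, Th, eval_theta, c, Finset.sum_mul, Finset.mul_sum]
    rw [Finset.sum_comm]
    refine Finset.sum_congr rfl fun l _ => Finset.sum_congr rfl fun j _ => ?_
    have h2 : (⟨Finsupp.weight X.deg (X.toMon hv m).1, (X.toMon hv m).2⟩ : {u // u ∈ D}) =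
        ⟨v, hv⟩ := Subtype.ext m.2
    rw [h2, mul_assoc]
    rfl
  rw [h1, ← eval_aeval_sig, h0, map_zero]

theorem ann_of_sum {x : Fin r → X.Pt} (c : Fin r → ℂ) :
    (X.ptIdeal x : Set X.S) ⊆ X.Ann (∑ i, c i • X.ev v (x i)) := by
  intro f hf k
  rw [LinearMap.sum_apply]
  refine Finset.sum_eq_zero fun i _ => ?_
  rw [LinearMap.smul_apply]
  have h1 := X.eval_of_mem_ptIdeal x
    (X.ptIdeal_homog x _ ((X.ptIdeal x).mul_mem_right k hf) v) i
  have h2 : X.ev v (x i) ⟨weightedHomogeneousComponent X.deg v (f * k),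
    weightedHomogeneousComponent_mem _ _ _⟩ = 0 := h1
  rw [h2, smul_zero]

/-- the general `bVSP` is nonempty -/
theorem exists_nonempty (r : ℕ) (v : X.Pic) : ∃ q : MvPolynomial (X.gr v) ℂ,
    (∃ F ∈ X.sec r v, eval (fun g => F g) q ≠ 0) ∧
      ∀ F ∈ X.sec r v, eval (fun g => F g) q ≠ 0 → ∀ D, (X.bVSP r D F).Nonempty := by
  obtain ⟨w, hw, h⟩ := X.exists_w0 r
  obtain ⟨b, hb1, hb2⟩ := Pool.Agent.H38.Gen.generic_lift (X.sig r v)
    (rename (Sum.inl : Fin r × Fin X.N → X.SV r) w) (fun h0 => hw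
      (rename_injective _ Sum.inl_injective (h0.trans (map_zero _).symm)))
  refine ⟨X.fromQ b, ?_, fun F hF hFq D => ?_⟩
  · obtain ⟨x, c, -, hxc⟩ := X.exists_torus_param hb1
    refine ⟨∑ i, c i • X.ev v (x i), X.sum_mem_sec x c, ?_⟩
    rw [eval_fromQ]
    have h1 : X.coords (∑ i, c i • X.ev v (x i)) = fun m => eval
        (Sum.elim (fun p : Fin r × Fin X.N => (x p.1).1 p.2) c) (X.sig r v m) :=
      funext fun m => X.coords_sum x c _ (fun _ _ => rfl) (fun _ => rfl) m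
    rw [h1, ← eval_aeval_sig]
    exact hxc
  · rw [eval_fromQ] at hFq
    obtain ⟨t, ht, hts⟩ := hb2 (X.coords F) (fun q hq => X.mem_sec_imp hF q hq) hFq
    rw [eval_rename] at ht
    obtain ⟨h1, h2⟩ := h _ ht
    let x : Fin r → X.Pt := fun l => X.torusPt (fun i => t (Sum.inl (l, i))) (h1 l)
    have hx : ∀ u, X.hf (X.ptIdeal x) u = X.hgen r u := fun u => by
      rw [h2 x (fun _ _ => rfl) u, hgen_eq]
    have hFx : F = ∑ i, t (Sum.inr i) • X.ev v (x i) := by
      apply X.dual_ext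
      funext m
      rw [X.coords_sum x _ t (fun _ _ => rfl) (fun _ => rfl) m]
      exact (hts m).symm
    refine ⟨X.ptHilb x hx, ?_, ?_⟩
    · exact @subset_closure _ (X.topo r D _) _ _ ⟨x, rfl⟩
    · rw [hFx]
      exact X.ann_of_sum _

/-- the main theorem, for `r` = the border rank -/
theorem main (hv : v ∈ D) (hD : X.Supportive D (X.hgen r)) :
    ∃ q : MvPolynomial (X.gr v) ℂ, (∃ F ∈ X.sec r v, eval (fun g => F g) q ≠ 0) ∧
      ∀ F ∈ X.sec r v, eval (fun g => F g) q ≠ 0 → ∀ Z,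
        IsComp (X.topo r D _) (X.bVSP r D F) Z →
          Generally (X.topo r D _) Z fun J => X.Saturated J.1 := by
  obtain ⟨w, hw0, hw⟩ := X.exists_w r D
  obtain ⟨b, hb0, hb⟩ := Pool.Agent.H38.Gen.generic_lift (X.theta (r := r) (D := D)) w hw0
  obtain ⟨a, ha0, ha⟩ := X.density hv hw hb0 hb
  refine ⟨X.fromQ a, ?_, fun F hF hFq Z hZ => ?_⟩
  · obtain ⟨x, c, -, hxc⟩ := X.exists_torus_param (X.sig_ne_zero hv ha0)
    refine ⟨∑ i, c i • X.ev v (x i), X.sum_mem_sec x c, ?_⟩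
    rw [eval_fromQ]
    have h1 : X.coords (∑ i, c i • X.ev v (x i)) = fun m => eval
        (Sum.elim (fun p : Fin r × Fin X.N => (x p.1).1 p.2) c) (X.sig r v m) :=
      funext fun m => X.coords_sum x c _ (fun _ _ => rfl) (fun _ => rfl) m
    rw [h1, ← eval_aeval_sig]
    exact hxc
  · rw [eval_fromQ] at hFq
    refine ⟨X.Ob b, X.isOpen_Ob b, ?_, ?_⟩
    · exact comp_meets (X.topo r D _) (X.noetherian r D) (ha F hFq) hZ
    · rintro J ⟨hJZ, hJb⟩
      obtain ⟨x, hx, hJx⟩ := X.eq_pt_of_mem hw hb hD (hZ.1.2 hJZ).1 hJb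
      rw [hJx]
      exact X.ptIdeal_saturated x hx

theorem supportive_mono {D D' : Finset X.Pic} (h : D ⊆ D') {hh : X.Pic → ℕ}
    (hD : X.Supportive D hh) : X.Supportive D' hh := by
  intro J
  refine le_antisymm ?_ ?_
  · conv_lhs => rw [hD J]
    refine Ideal.span_mono ?_
    rintro f ⟨hf, u, hu, hfu⟩
    exact ⟨hf, u, h hu, hfu⟩
  · rw [Ideal.span_le]
    exact fun f hf => hf.1

theorem exists_D (r : ℕ) (v : X.Pic) :
    ∃ D : Finset X.Pic, v ∈ D ∧ ∀ k ≤ r, X.Supportive D (X.hgen k) := by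
  classical
  choose D hD1 hD2 using fun k : ℕ => Pool.Agent.H24.VSP.exists_supportive X (X.hgen k) v
  refine ⟨(Finset.range (r + 1)).biUnion D, ?_, fun k hk => ?_⟩
  · rw [Finset.mem_biUnion]
    exact ⟨0, by simp, hD1 0⟩
  · exact X.supportive_mono (Finset.subset_biUnion_of_mem D
      (Finset.mem_range.2 (Nat.lt_succ_of_le hk))) (hD2 k)

end Pool.Agent.H78.VSP.CoxData
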