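import Pool.Agent.H78.VSP.Generic

set_option autoImplicit false

open MvPolynomial

namespace Pool.Agent.H78.VSP.CoxData

variable (X : CoxData) {r : ℕ} {D : Finset X.Pic}

theorem eq_sum_mon {u : X.Pic} (hu : u ∈ D) {f : X.S} (hf : f ∈ X.gr u) :
    f = ∑ m : X.Mon D, monomial m.1 (coeff m.1 f) := by
  classical
  ext m
  rw [coeff_sum]
  by_cases hm : Finsupp.weight X.deg m ∈ D
  · rw [Finset.sum_eq_single (⟨m, hm⟩ : X.Mon D)]
    · rw [coeff_monomial, if_pos rfl]
    · intro b _ hb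
      rw [coeff_monomial, if_neg]
      intro h
      exact hb (Subtype.ext h)
    · intro h; exact absurd (Finset.mem_univ _) h
  · rw [hf.coeff_eq_zero m (fun h => hm (h ▸ hu)), Finset.sum_eq_zero]
    intro b _
    rw [coeff_monomial, if_neg]
    intro h
    exact hm (h ▸ b.2)

/-- the linear map on polynomials given by a frame -/
noncomputable def frm (φ : X.Mon D × Fin r → ℂ) : X.S →ₗ[ℂ] (Fin r → ℂ) :=
  LinearMap.pi fun j => ∑ m : X.Mon D, φ (m, j) • lcoeff ℂ m.1

theorem frm_apply (φ : X.Mon D × Fin r → ℂ) (f : X.S) (j : Fin r) :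
    X.frm φ f j = ∑ m : X.Mon D, coeff m.1 f * φ (m, j) := by
  simp only [frm, LinearMap.pi_apply, LinearMap.sum_apply, LinearMap.smul_apply, lcoeff_apply,
    smul_eq_mul, mul_comm]

theorem frm_eq_zero_iff (φ : X.Mon D × Fin r → ℂ) (f : X.S) :
    X.frm φ f = 0 ↔ ∀ j, ∑ m : X.Mon D, coeff m.1 f * φ (m, j) = 0 := by
  rw [funext_iff]
  simp only [frm_apply, Pi.zero_apply]

theorem frm_monomial (φ : X.Mon D × Fin r → ℂ) (m : X.Mon D) (j : Fin r) :
    X.frm φ (monomial m.1 1) j = φ (m, j) := by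
  classical
  rw [frm_apply, Finset.sum_eq_single m]
  · rw [coeff_monomial, if_pos rfl, one_mul]
  · intro b _ hb
    rw [coeff_monomial, if_neg, zero_mul]
    intro h
    exact hb (Subtype.ext h.symm)
  · intro h; exact absurd (Finset.mem_univ _) h

theorem isFrame_iff (φ : X.Mon D × Fin r → ℂ) (J : Ideal X.S) :
    X.IsFrame φ J ↔ ∀ u ∈ D, ∀ f ∈ X.gr u, (f ∈ J ↔ X.frm φ f = 0) := by
  simp only [IsFrame, frm_eq_zero_iff]

/-- the parameters: coordinates of `r` points, and a square matrix for each degree in `D` -/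
abbrev PV (r : ℕ) (D : Finset X.Pic) : Type := (Fin r × Fin X.N) ⊕ ({u // u ∈ D} × Fin r × Fin r)

/-- parametrization of the frames of ideals of points -/
noncomputable def theta (s : X.Mon D × Fin r) : MvPolynomial (X.PV r D) ℂ :=
  ∑ l, MvPolynomial.X (Sum.inr (⟨_, s.1.2⟩, s.2, l)) *
    rename (fun i => Sum.inl (l, i)) (monomial s.1.1 (1 : ℂ))

theorem eval_theta (t : X.PV r D → ℂ) (s : X.Mon D × Fin r) :
    eval t (X.theta s) = ∑ l, t (Sum.inr (⟨_, s.1.2⟩, s.2, l)) *
      eval (fun i => t (Sum.inl (l, i))) (monomial s.1.1 (1 : ℂ)) := by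
  rw [theta, map_sum]
  refine Finset.sum_congr rfl fun l _ => ?_
  rw [map_mul, eval_X, eval_rename]
  rfl

theorem frm_theta (t : X.PV r D → ℂ) {u : X.Pic} (hu : u ∈ D) {f : X.S} (hf : f ∈ X.gr u)
    (j : Fin r) : X.frm (fun s => eval t (X.theta s)) f j =
      ∑ l, t (Sum.inr (⟨u, hu⟩, j, l)) * eval (fun i => t (Sum.inl (l, i))) f := by
  have h1 : ∀ l, eval (fun i => t (Sum.inl (l, i))) f = ∑ m : X.Mon D, coeff m.1 f *
      eval (fun i => t (Sum.inl (l, i))) (monomial m.1 (1 : ℂ)) := by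
    intro l
    conv_lhs => rw [X.eq_sum_mon hu hf, map_sum]
    refine Finset.sum_congr rfl fun m _ => ?_
    rw [eval_monomial, eval_monomial, one_mul]
  rw [frm_apply]
  simp only [h1, eval_theta, Finset.mul_sum]
  rw [Finset.sum_comm]
  refine Finset.sum_congr rfl fun l _ => Finset.sum_congr rfl fun m _ => ?_
  by_cases hm : Finsupp.weight X.deg m.1 = u
  · subst hm
    ring
  · rw [hf.coeff_eq_zero m.1 hm]
    ring

/-- If the kernels of `φ'` are contained in those of `φ`, then `φ` is obtained from `φ'` by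
matrices. -/
theorem exists_factor (φ φ' : X.Mon D × Fin r → ℂ)
    (h : ∀ u ∈ D, ∀ f ∈ X.gr u, X.frm φ' f = 0 → X.frm φ f = 0) :
    ∃ G : {u // u ∈ D} → Fin r → Fin r → ℂ, ∀ (m : X.Mon D) (j : Fin r),
      φ (m, j) = ∑ l, G ⟨_, m.2⟩ j l * φ' (m, l) := by
  have key : ∀ (u : {u // u ∈ D}) (j : Fin r), ∃ c : Fin r → ℂ, ∀ f ∈ X.gr u.1,
      X.frm φ f j = ∑ l, c l * X.frm φ' f l := by
    intro u j
    let L : Fin r → X.gr u.1 →ₗ[ℂ] ℂ := fun l =>
      (LinearMap.proj l).comp ((X.frm φ').comp (X.gr u.1).subtype)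
    let K : X.gr u.1 →ₗ[ℂ] ℂ := (LinearMap.proj j).comp ((X.frm φ).comp (X.gr u.1).subtype)
    have h1 : ⨅ l, LinearMap.ker (L l) ≤ LinearMap.ker K := by
      intro f hf
      rw [Submodule.mem_iInf] at hf
      have h2 : X.frm φ' f.1 = 0 := funext fun l => hf l
      have h3 := h u.1 u.2 f.1 f.2 h2
      exact congrFun h3 j
    obtain ⟨c, hc⟩ := (Submodule.mem_span_range_iff_exists_fun ℂ).1
      (mem_span_of_iInf_ker_le_ker h1)
    refine ⟨c, fun f hf => ?_⟩
    have h4 := LinearMap.congr_fun hc ⟨f, hf⟩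
    simp only [L, K, LinearMap.sum_apply, LinearMap.smul_apply, LinearMap.comp_apply,
      LinearMap.proj_apply, Submodule.subtype_apply, smul_eq_mul] at h4
    exact h4.symm
  choose G hG using key
  refine ⟨G, fun m j => ?_⟩
  have h5 := hG ⟨_, m.2⟩ j (monomial m.1 1) (X.monomial_mem rfl 1)
  simp only [frm_monomial] at h5
  exact h5

theorem exists_w (r : ℕ) (D : Finset X.Pic) : ∃ w : MvPolynomial (X.PV r D) ℂ, w ≠ 0 ∧
    ∀ t : X.PV r D → ℂ, eval t w ≠ 0 → (∀ l i, t (Sum.inl (l, i)) ≠ 0) ∧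
      (∀ u : {u // u ∈ D}, Matrix.det (Matrix.of fun j l => t (Sum.inr (u, j, l))) ≠ 0) ∧
      ∀ x : Fin r → X.Pt, (∀ l i, (x l).1 i = t (Sum.inl (l, i))) →
        ∀ u, X.hf (X.ptIdeal x) u = X.hgen r u := by
  classical
  obtain ⟨w, hw, h⟩ := X.exists_w0 r
  refine ⟨rename Sum.inl w * ∏ u : {u // u ∈ D},
    rename (fun p : Fin r × Fin r => Sum.inr (u, p.1, p.2))
      (Matrix.det (Matrix.mvPolynomialX (Fin r) (Fin r) ℂ)), ?_, ?_⟩
  · refine mul_ne_zero ?_ (Finset.prod_ne_zero_iff.2 fun u _ => ?_)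
    · intro h0
      exact hw (rename_injective _ Sum.inl_injective (h0.trans (map_zero _).symm))
    · intro h0
      refine Matrix.det_mvPolynomialX_ne_zero (Fin r) ℂ
        (rename_injective (fun p : Fin r × Fin r => (Sum.inr (u, p.1, p.2) : X.PV r D)) ?_
        (h0.trans (map_zero _).symm))
      intro p q hpq
      have := Sum.inr_injective hpq
      simp only [Prod.mk.injEq, true_and] at this
      exact Prod.ext this.1 this.2
  · intro t ht
    rw [map_mul, map_prod] at ht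
    have ht1 := left_ne_zero_of_mul ht
    have ht2 := Finset.prod_ne_zero_iff.1 (right_ne_zero_of_mul ht)
    rw [eval_rename] at ht1
    obtain ⟨h1, h2⟩ := h _ ht1
    refine ⟨h1, fun u => ?_, fun x hx u => ?_⟩
    · have h3 := ht2 u (Finset.mem_univ _)
      rw [eval_rename, RingHom.map_det] at h3
      convert h3 using 2
      ext j l
      simp [Matrix.mvPolynomialX_apply]
    · rw [h2 x hx u, hgen_eq]

end Pool.Agent.H78.VSP.CoxData
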