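import Pool.Agent.H78.VSP.Basic

set_option autoImplicit false

open MvPolynomial

namespace Pool.Agent.H78.VSP

theorem mapDomain_pair {r N : ℕ} (c c' : Fin r) (f : Fin N →₀ ℕ) (j : Fin N) :
    (Finsupp.mapDomain (fun j => (c, j)) f) (c', j) = if c = c' then f j else 0 := by
  by_cases h : c = c'
  · subst h
    rw [if_pos rfl]
    exact Finsupp.mapDomain_apply (fun a b hab => (Prod.ext_iff.1 hab).2) f j
  · rw [if_neg h]
    refine Finsupp.mapDomain_of_notMem_range f _ ?_
    rintro ⟨i, hi⟩
    exact h (Prod.ext_iff.1 hi).1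

/-- the minor -/
noncomputable def minorPoly {k r N : ℕ} (hk : k ≤ r) (e : Fin k → (Fin N →₀ ℕ)) :
    MvPolynomial (Fin r × Fin N) ℂ :=
  Matrix.det (Matrix.of fun a b : Fin k =>
    rename (fun i => (Fin.castLE hk a, i)) (monomial (e b) (1 : ℂ)))

theorem minorPoly_ne_zero {k r N : ℕ} (hk : k ≤ r) (e : Fin k → (Fin N →₀ ℕ))
    (he : Function.Injective e) : minorPoly hk e ≠ 0 := by
  classical
  intro h
  have h1 := congrArg (coeff (∑ i, Finsupp.mapDomain (fun j => (Fin.castLE hk i, j)) (e i))) h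
  rw [minorPoly, Matrix.det_apply, coeff_sum, coeff_zero] at h1
  rw [Finset.sum_eq_single (1 : Equiv.Perm (Fin k))] at h1
  · simp only [Equiv.Perm.sign_one, one_smul, Equiv.Perm.coe_one, id_eq, Matrix.of_apply,
      rename_monomial, ← monomial_sum_one, coeff_monomial, if_true] at h1
    exact one_ne_zero h1
  · intro σ _ hσ
    simp only [Matrix.of_apply, rename_monomial, ← monomial_sum_one]
    rw [coeff_smul, coeff_monomial, if_neg, smul_zero]
    intro hE
    apply hσ
    ext i0
    have h2 : e i0 = e (σ i0) := by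
      ext j
      have h3 := DFunLike.congr_fun hE (Fin.castLE hk (σ i0), j)
      simp only [Finsupp.finsetSum_apply, mapDomain_pair] at h3
      rw [Finset.sum_eq_single i0, Finset.sum_eq_single (σ i0), if_pos rfl, if_pos rfl] at h3
      · exact h3
      · intro b _ hb
        rw [if_neg]
        intro hc
        exact hb (Fin.castLE_injective hk hc)
      · intro h; exact absurd (Finset.mem_univ _) h
      · intro b _ hb
        rw [if_neg]
        intro hc
        exact hb (σ.injective (Fin.castLE_injective hk hc))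
      · intro h; exact absurd (Finset.mem_univ _) h
    rw [← he h2]
    rfl
  · intro h; exact absurd (Finset.mem_univ _) h

theorem eval_minorPoly {k r N : ℕ} (hk : k ≤ r) (e : Fin k → (Fin N →₀ ℕ))
    (t : Fin r × Fin N → ℂ) :
    eval t (minorPoly hk e) = Matrix.det (Matrix.of fun a b : Fin k =>
      eval (fun i => t (Fin.castLE hk a, i)) (monomial (e b) (1 : ℂ))) := by
  rw [minorPoly, RingHom.map_det]
  congr 1
  ext a b
  simp only [RingHom.mapMatrix_apply, Matrix.map_apply, Matrix.of_apply]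
  rw [eval_rename]
  rfl

namespace CoxData

variable (X : CoxData)

theorem monomial_mem {m : Fin X.N →₀ ℕ} {u : X.Pic} (h : Finsupp.weight X.deg m = u) (c : ℂ) :
    monomial m c ∈ X.gr u := isWeightedHomogeneous_monomial _ _ _ h

theorem le_hf {r k : ℕ} (hk : k ≤ r) (u : X.Pic) (e : Fin k → (Fin X.N →₀ ℕ))
    (heu : ∀ b, Finsupp.weight X.deg (e b) = u) (x : Fin r → X.Pt)
    (hdet : Matrix.det (Matrix.of fun a b : Fin k =>
      eval (x (Fin.castLE hk a)).1 (monomial (e b) (1 : ℂ))) ≠ 0) :
    k ≤ X.hf (X.ptIdeal x) u := by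
  rw [hf_ptIdeal]
  let y : Fin k → (Fin r → ℂ) := fun b =>
    X.evm u (fun i => (x i).1) ⟨monomial (e b) 1, X.monomial_mem (heu b) 1⟩
  have hy : LinearIndependent ℂ y := by
    have h1 : LinearIndependent ℂ ((LinearMap.funLeft ℂ ℂ (Fin.castLE hk)) ∘ y) := by
      have h2 := Matrix.linearIndependent_rows_of_det_ne_zero (A := (Matrix.of fun a b : Fin k =>
        eval (x (Fin.castLE hk a)).1 (monomial (e b) (1 : ℂ))).transpose)
        (by rwa [Matrix.det_transpose])
      have h3 : ((LinearMap.funLeft ℂ ℂ (Fin.castLE hk)) ∘ y) =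
          fun i => (Matrix.of fun a b : Fin k =>
        eval (x (Fin.castLE hk a)).1 (monomial (e b) (1 : ℂ))).transpose i := by
        funext b a
        simp only [Function.comp_apply, LinearMap.funLeft_apply, y, evm_apply]
        rfl
      rw [h3]
      exact h2
    exact h1.of_comp _
  have h3 : Submodule.span ℂ (Set.range y) ≤ LinearMap.range (X.evm u fun i => (x i).1) := by
    rw [Submodule.span_le]
    rintro _ ⟨b, rfl⟩
    exact ⟨_, rfl⟩
  have h4 := finrank_span_eq_card hy
  rw [Fintype.card_fin] at h4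
  rw [← h4]
  exact Submodule.finrank_mono h3

/-- number of monomials of degree `u` -/
noncomputable def nmon (u : X.Pic) : ℕ := Nat.card {m : Fin X.N →₀ ℕ // Finsupp.weight X.deg m = u}

instance (u : X.Pic) : Finite {m : Fin X.N →₀ ℕ // Finsupp.weight X.deg m = u} :=
  (X.finite_monomials u).to_subtype

theorem finrank_le_nmon (u : X.Pic) : Module.finrank ℂ (X.gr u) ≤ X.nmon u := by
  have : Fintype {m : Fin X.N →₀ ℕ // Finsupp.weight X.deg m = u} := Fintype.ofFinite _
  let L : X.gr u →ₗ[ℂ] ({m : Fin X.N →₀ ℕ // Finsupp.weight X.deg m = u} → ℂ) :=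
    (LinearMap.pi fun m => lcoeff ℂ m.1).comp (X.gr u).subtype
  have hL : Function.Injective L := by
    rw [← LinearMap.ker_eq_bot, LinearMap.ker_eq_bot']
    intro f hf
    apply Subtype.ext
    ext m
    by_cases hm : Finsupp.weight X.deg m = u
    · exact congrFun hf ⟨m, hm⟩
    · rw [Submodule.coe_zero, coeff_zero]
      exact f.2.coeff_eq_zero m hm
  have := LinearMap.finrank_le_finrank_of_injective hL
  rwa [Module.finrank_fintype_fun_eq_card, ← Nat.card_eq_fintype_card] at this

/-- an enumeration of `min r (nmon u)` monomials of degree `u` -/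
theorem exists_enum (r : ℕ) (u : X.Pic) : ∃ e : Fin (min r (X.nmon u)) → (Fin X.N →₀ ℕ),
    Function.Injective e ∧ ∀ b, Finsupp.weight X.deg (e b) = u := by
  let e0 := Finite.equivFin {m : Fin X.N →₀ ℕ // Finsupp.weight X.deg m = u}
  refine ⟨fun b => (e0.symm (Fin.castLE (min_le_right _ _) b)).1, ?_, ?_⟩
  · intro a b hab
    have := e0.symm.injective (Subtype.ext hab)
    exact Fin.castLE_injective _ this
  · intro b
    exact (e0.symm _).2

/-- Multiplying by a monomial does not decrease the Hilbert function of torus points. -/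
theorem hf_mono {r : ℕ} (x : Fin r → X.Pt) (hx : ∀ i j, (x i).1 j ≠ 0) (u : X.Pic)
    (a : Fin X.N →₀ ℕ) :
    X.hf (X.ptIdeal x) u ≤ X.hf (X.ptIdeal x) (u + Finsupp.weight X.deg a) := by
  rw [hf_ptIdeal, hf_ptIdeal]
  let c : Fin r → ℂ := fun i => eval (x i).1 (monomial a 1)
  have hc : ∀ i, c i ≠ 0 := by
    intro i
    simp only [c, eval_monomial, one_mul, Finsupp.prod]
    exact Finset.prod_ne_zero_iff.2 fun j _ => pow_ne_zero _ (hx i j)
  let M : (Fin r → ℂ) →ₗ[ℂ] (Fin r → ℂ) := LinearMap.pi fun i => c i • LinearMap.proj i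
  have hM : Function.Injective M := by
    intro p q hpq
    funext i
    have := congrFun hpq i
    simp only [M, LinearMap.pi_apply, LinearMap.smul_apply, LinearMap.proj_apply,
      smul_eq_mul] at this
    exact mul_left_cancel₀ (hc i) this
  have h1 : (LinearMap.range (X.evm u fun i => (x i).1)).map M ≤
      LinearMap.range (X.evm (u + Finsupp.weight X.deg a) fun i => (x i).1) := by
    rintro _ ⟨_, ⟨f, rfl⟩, rfl⟩
    have hmem : monomial a (1 : ℂ) * f.1 ∈ X.gr (u + Finsupp.weight X.deg a) := by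
      rw [add_comm]
      exact (isWeightedHomogeneous_monomial _ _ _ rfl).mul f.2
    refine ⟨⟨_, hmem⟩, ?_⟩
    funext i
    rw [evm_apply]
    simp only [M, LinearMap.pi_apply, LinearMap.smul_apply, LinearMap.proj_apply,
      smul_eq_mul, evm_apply, map_mul, c]
  rw [(Submodule.equivMapOfInjective M hM _).finrank_eq]
  exact Submodule.finrank_mono h1

end CoxData

end Pool.Agent.H78.VSP

namespace Pool.Agent.H78.VSP.CoxData

variable (X : CoxData)

theorem exists_finite_min (r : ℕ) : ∃ M : Finset (Fin X.N →₀ ℕ), ∀ a : Fin X.N →₀ ℕ, ∃ b ∈ M,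
    b ≤ a ∧ min r (X.nmon (Finsupp.weight X.deg b)) = min r (X.nmon (Finsupp.weight X.deg a)) := by
  classical
  let A : ℕ → Set (Fin X.N →₀ ℕ) := fun k => {a | min r (X.nmon (Finsupp.weight X.deg a)) = k}
  have hfin : ∀ k, {b | Minimal (· ∈ A k) b}.Finite := fun k =>
    WellQuasiOrderedLE.finite_of_isAntichain (setOfPred_minimal_antichain _)
  refine ⟨(Finset.range (r + 1)).biUnion fun k => (hfin k).toFinset, fun a => ?_⟩
  obtain ⟨b, hba, hb⟩ := Set.IsPWO.exists_le_minimal (Set.isPWO_of_wellQuasiOrderedLE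
    (A (min r (X.nmon (Finsupp.weight X.deg a))))) (show a ∈ A _ from rfl)
  refine ⟨b, ?_, hba, hb.1⟩
  rw [Finset.mem_biUnion]
  refine ⟨min r (X.nmon (Finsupp.weight X.deg a)), ?_, ?_⟩
  · rw [Finset.mem_range]
    exact Nat.lt_succ_of_le (min_le_left _ _)
  · rw [Set.Finite.mem_toFinset]
    exact hb

/-- the polynomial cutting out the good locus in the space of `r`-tuples of points -/
theorem exists_w0 (r : ℕ) : ∃ w : MvPolynomial (Fin r × Fin X.N) ℂ, w ≠ 0 ∧
    ∀ t : Fin r × Fin X.N → ℂ, eval t w ≠ 0 → (∀ l i, t (l, i) ≠ 0) ∧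
      ∀ x : Fin r → X.Pt, (∀ l i, (x l).1 i = t (l, i)) →
        ∀ u, X.hf (X.ptIdeal x) u = min r (X.nmon u) := by
  classical
  obtain ⟨M, hM⟩ := X.exists_finite_min r
  choose e he1 he2 using X.exists_enum r
  refine ⟨(∏ a : Fin r × Fin X.N, MvPolynomial.X a) *
    ∏ b ∈ M, minorPoly (min_le_left _ _) (e (Finsupp.weight X.deg b)), ?_, ?_⟩
  · refine mul_ne_zero (Finset.prod_ne_zero_iff.2 fun a _ => X_ne_zero a)
      (Finset.prod_ne_zero_iff.2 fun b _ => minorPoly_ne_zero _ _ (he1 _))
  · intro t ht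
    rw [map_mul, map_prod, map_prod] at ht
    have ht1 := Finset.prod_ne_zero_iff.1 (left_ne_zero_of_mul ht)
    have ht2 := Finset.prod_ne_zero_iff.1 (right_ne_zero_of_mul ht)
    have ht3 : ∀ l i, t (l, i) ≠ 0 := fun l i => by
      have := ht1 (l, i) (Finset.mem_univ _)
      rwa [eval_X] at this
    refine ⟨ht3, fun x hx u => le_antisymm (le_min (X.hf_ptIdeal_le x u)
      ((X.hf_le _ u).trans (X.finrank_le_nmon u))) ?_⟩
    rcases isEmpty_or_nonempty {m : Fin X.N →₀ ℕ // Finsupp.weight X.deg m = u} with h | ⟨⟨a, ha⟩⟩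
    · have : X.nmon u = 0 := Nat.card_of_isEmpty
      rw [this, Nat.min_zero]
      exact Nat.zero_le _
    · obtain ⟨b, hbM, hba, hb⟩ := hM a
      rw [← ha, ← hb]
      have h1 : min r (X.nmon (Finsupp.weight X.deg b)) ≤
          X.hf (X.ptIdeal x) (Finsupp.weight X.deg b) := by
        refine X.le_hf (min_le_left _ _) _ (e _) (he2 _) x ?_
        have h2 := ht2 b hbM
        rw [eval_minorPoly] at h2
        convert h2 using 4
        rw [show (fun i => t (Fin.castLE _ _, i)) = (x (Fin.castLE _ _)).1 from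
          funext fun i => (hx _ i).symm]
      refine h1.trans ?_
      have h3 : Finsupp.weight X.deg a =
          Finsupp.weight X.deg b + Finsupp.weight X.deg (a - b) := by
        rw [← map_add, add_tsub_cancel_of_le hba]
      rw [h3]
      exact X.hf_mono x (fun l i => by rw [hx]; exact ht3 l i) _ _

theorem hgen_eq (r : ℕ) (u : X.Pic) : X.hgen r u = min r (X.nmon u) := by
  obtain ⟨w, hw, h⟩ := X.exists_w0 r
  obtain ⟨t, ht⟩ : ∃ t, eval t w ≠ 0 := by
    by_contra hc
    push Not at hc
    exact hw (MvPolynomial.funext fun t => by rw [hc t, map_zero])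
  obtain ⟨h1, h2⟩ := h t ht
  refine le_antisymm (le_min (X.hgen_le r u) ((X.hgen_le' r u).trans (X.finrank_le_nmon u))) ?_
  rw [← h2 (fun l => X.torusPt (fun i => t (l, i)) (h1 l)) (fun _ _ => rfl) u]
  exact X.le_hgen _ u

end Pool.Agent.H78.VSP.CoxData
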