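import Pool.Agent.H78.VSP.Closure
import Pool.Agent.H38.Gen.GenericLift
import Pool.Agent.H54.GenericDensity
import Pool.Agent.H24.VSP.Supportive

set_option autoImplicit false

open MvPolynomial

namespace Pool.Agent.H78.VSP.CoxData

variable (X : CoxData) {r : ℕ} {D : Finset X.Pic}

/-- the open set attached to a polynomial in the frame coordinates -/
def Ob (b : MvPolynomial (X.Mon D × Fin r) ℂ) : Set (X.Hilb (X.hgen r)) :=
  {J | ∃ φ : X.Mon D × Fin r → ℂ, X.IsFrame φ J.1 ∧ ∃ G, eval (X.act G φ) b ≠ 0}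

theorem isOpen_Ob (b : MvPolynomial (X.Mon D × Fin r) ℂ) :
    @IsOpen _ (X.topo r D _) (X.Ob b) := by
  rw [isOpen_topo_iff]
  rintro q ⟨φ, hφ, G, hG⟩
  obtain ⟨H, rfl⟩ := X.factor_of_frame hφ q.2
  refine ⟨X.actP (X.mulG G H) b, ?_, fun q' hq' => ⟨q'.1.1, q'.2, X.mulG G H, ?_⟩⟩
  · rw [eval_actP, ← act_act]; exact hG
  · rw [← eval_actP]; exact hq'

theorem eval_Th (t : X.PV r D → ℂ) (q : MvPolynomial (X.Mon D × Fin r) ℂ) :
    eval (X.Th t) q = eval t (aeval X.theta q) := by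
  have : ((aeval t : _ →ₐ[ℂ] ℂ).comp (aeval X.theta)) = aeval (X.Th t) := by
    apply algHom_ext
    intro s
    rw [AlgHom.comp_apply, aeval_X, aeval_X]
    rfl
  exact (DFunLike.congr_fun this q).symm

theorem clos_iff (φ : X.Mon D × Fin r → ℂ) :
    X.Clos φ ↔ ∀ q : MvPolynomial (X.Mon D × Fin r) ℂ, aeval X.theta q = 0 → eval φ q = 0 := by
  constructor
  · intro h q hq
    refine h q fun t => ?_
    rw [eval_Th, hq, map_zero]
  · intro h q hq
    refine h q (MvPolynomial.funext fun t => ?_)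
    rw [← eval_Th, hq, map_zero]

/-- a parameter at which `w ≠ 0` gives points with generic Hilbert function and a frame -/
theorem good_pt {w : MvPolynomial (X.PV r D) ℂ}
    (hw : ∀ t : X.PV r D → ℂ, eval t w ≠ 0 → (∀ l i, t (Sum.inl (l, i)) ≠ 0) ∧
      (∀ u : {u // u ∈ D}, Matrix.det (Matrix.of fun j l => t (Sum.inr (u, j, l))) ≠ 0) ∧
      ∀ x : Fin r → X.Pt, (∀ l i, (x l).1 i = t (Sum.inl (l, i))) →
        ∀ u, X.hf (X.ptIdeal x) u = X.hgen r u)
    (t : X.PV r D → ℂ) (ht : eval t w ≠ 0) :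
    ∃ x : Fin r → X.Pt, (∀ l i, (x l).1 i = t (Sum.inl (l, i))) ∧ (∀ i j, (x i).1 j ≠ 0) ∧
      (∀ u, X.hf (X.ptIdeal x) u = X.hgen r u) ∧ X.IsFrame (X.Th t) (X.ptIdeal x) := by
  obtain ⟨h1, h2, h3⟩ := hw t ht
  let x : Fin r → X.Pt := fun l => X.torusPt (fun i => t (Sum.inl (l, i))) (h1 l)
  refine ⟨x, fun _ _ => rfl, h1, h3 x fun _ _ => rfl, ?_⟩
  rw [isFrame_iff]
  intro u hu f hf
  rw [X.mem_ptIdeal_iff x hf]
  constructor
  · intro h
    funext j
    have h4 := X.frm_theta t hu hf j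
    rw [Finset.sum_eq_zero] at h4
    · exact h4
    · intro l _
      rw [show eval (fun i => t (Sum.inl (l, i))) f = 0 from h l, mul_zero]
  · intro h
    have h5 : (Matrix.of fun j l => t (Sum.inr ((⟨u, hu⟩ : {u // u ∈ D}), j, l))).mulVec
        (fun l => eval (fun i => t (Sum.inl (l, i))) f) = 0 := by
      funext j
      have h4 := X.frm_theta t hu hf j
      have h6 : X.frm (fun s => eval t (X.theta s)) f j = 0 := congrFun h j
      rw [h6] at h4
      exact h4.symm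
    have h7 := Matrix.eq_zero_of_mulVec_eq_zero (h2 ⟨u, hu⟩) h5
    exact fun l => congrFun h7 l

theorem ideal_eq (hD : X.Supportive D (X.hgen r)) (J : X.Hilb (X.hgen r)) (x : Fin r → X.Pt)
    (hx : ∀ u, X.hf (X.ptIdeal x) u = X.hgen r u)
    (h : ∀ u ∈ D, ∀ f ∈ X.gr u, f ∈ J.1 → f ∈ X.ptIdeal x) : J.1 = X.ptIdeal x := by
  have h1 : ∀ u ∈ D, ∀ f ∈ X.gr u, (f ∈ J.1 ↔ f ∈ X.ptIdeal x) := by
    intro u hu f hf
    refine ⟨h u hu f hf, fun hfx => ?_⟩
    have h2 : (J.1.restrictScalars ℂ).comap (X.gr u).subtype ≤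
        ((X.ptIdeal x).restrictScalars ℂ).comap (X.gr u).subtype := by
      intro g hg
      exact h u hu g.1 g.2 hg
    have h3 := Submodule.finrank_quotient_add_finrank
      ((J.1.restrictScalars ℂ).comap (X.gr u).subtype)
    have h4 := Submodule.finrank_quotient_add_finrank
      (((X.ptIdeal x).restrictScalars ℂ).comap (X.gr u).subtype)
    have h5 : Module.finrank ℂ (X.gr u ⧸ (J.1.restrictScalars ℂ).comap (X.gr u).subtype) =
        X.hgen r u := J.2.2 u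
    have h6 : Module.finrank ℂ (X.gr u ⧸
        ((X.ptIdeal x).restrictScalars ℂ).comap (X.gr u).subtype) = X.hgen r u := hx u
    have h7 := Submodule.eq_of_le_of_finrank_le h2 (by omega)
    have h8 : (⟨f, hf⟩ : X.gr u) ∈
        ((X.ptIdeal x).restrictScalars ℂ).comap (X.gr u).subtype := hfx
    rw [← h7] at h8
    exact h8
  have h9 := hD J
  have h10 := hD (X.ptHilb x hx)
  rw [h9, show X.ptIdeal x = (X.ptHilb x hx).1 from rfl, h10]
  congr 1
  ext f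
  constructor
  · rintro ⟨hf1, u, hu, hf2⟩
    exact ⟨(h1 u hu f hf2).1 hf1, u, hu, hf2⟩
  · rintro ⟨hf1, u, hu, hf2⟩
    exact ⟨(h1 u hu f hf2).2 hf1, u, hu, hf2⟩

theorem frm_act_eq_zero (G : {u // u ∈ D} → Fin r → Fin r → ℂ) (φ : X.Mon D × Fin r → ℂ)
    {u : X.Pic} (hu : u ∈ D) {f : X.S} (hf : f ∈ X.gr u) (h : X.frm φ f = 0) :
    X.frm (X.act G φ) f = 0 := by
  have key : ∀ j, X.frm (X.act G φ) f j = ∑ l, G ⟨u, hu⟩ j l * X.frm φ f l := by
    intro j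
    simp only [frm_apply, act, Finset.mul_sum]
    rw [Finset.sum_comm]
    refine Finset.sum_congr rfl fun l _ => Finset.sum_congr rfl fun m _ => ?_
    by_cases hm : Finsupp.weight X.deg m.1 = u
    · subst hm
      ring
    · rw [hf.coeff_eq_zero m.1 hm]
      ring
  funext j
  rw [key, h]
  simp

/-- ideals in `Slip` and in the open set `Ob b` are ideals of torus points -/
theorem eq_pt_of_mem {w : MvPolynomial (X.PV r D) ℂ}
    (hw : ∀ t : X.PV r D → ℂ, eval t w ≠ 0 → (∀ l i, t (Sum.inl (l, i)) ≠ 0) ∧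
      (∀ u : {u // u ∈ D}, Matrix.det (Matrix.of fun j l => t (Sum.inr (u, j, l))) ≠ 0) ∧
      ∀ x : Fin r → X.Pt, (∀ l i, (x l).1 i = t (Sum.inl (l, i))) →
        ∀ u, X.hf (X.ptIdeal x) u = X.hgen r u)
    {b : MvPolynomial (X.Mon D × Fin r) ℂ}
    (hb : ∀ y : X.Mon D × Fin r → ℂ,
      (∀ q : MvPolynomial (X.Mon D × Fin r) ℂ, aeval X.theta q = 0 → eval y q = 0) →
      eval y b ≠ 0 → ∃ t : X.PV r D → ℂ, eval t w ≠ 0 ∧ ∀ s, eval t (X.theta s) = y s)
    (hD : X.Supportive D (X.hgen r)) {J : X.Hilb (X.hgen r)} (hJ : J ∈ X.Slip r D)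
    (hJb : J ∈ X.Ob b) : ∃ x : Fin r → X.Pt, (∀ i j, (x i).1 j ≠ 0) ∧ J.1 = X.ptIdeal x := by
  obtain ⟨φ, hφ, G, hG⟩ := hJb
  have h1 := (X.clos_of_mem_Slip hJ hφ).act X G
  obtain ⟨t, ht, hty⟩ := hb _ ((X.clos_iff _).1 h1) hG
  obtain ⟨x, -, hx1, hx2, hx3⟩ := X.good_pt hw t ht
  refine ⟨x, hx1, X.ideal_eq hD J x hx2 fun u hu f hf hfJ => ?_⟩
  rw [isFrame_iff] at hφ hx3
  rw [hx3 u hu f hf]
  have h2 : X.Th t = X.act G φ := funext hty
  rw [h2]
  exact X.frm_act_eq_zero G φ hu hf ((hφ u hu f hf).1 hfJ)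

end Pool.Agent.H78.VSP.CoxData
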