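import Pool.Agent.H78.VSP.Density
import Pool.Agent.H78.VSP.Comp

set_option autoImplicit false

open MvPolynomial

namespace Pool.Agent.H78.VSP.CoxData

variable (X : CoxData) {r : ℕ} {D : Finset X.Pic} {v : X.Pic}

/-- parameters for sums of `k` multiples of points -/
abbrev SV (k : ℕ) : Type := (Fin k × Fin X.N) ⊕ Fin k

/-- parametrization of the sums of `k` multiples of points -/
noncomputable def sig (k : ℕ) (v : X.Pic) (m : X.MV v) : MvPolynomial (X.SV k) ℂ :=
  ∑ l, MvPolynomial.X (Sum.inr l) * rename (fun i => Sum.inl (l, i)) (monomial m.1 (1 : ℂ))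

theorem eval_sig (k : ℕ) (t : X.SV k → ℂ) (m : X.MV v) :
    eval t (X.sig k v m) = ∑ l, t (Sum.inr l) *
      eval (fun i => t (Sum.inl (l, i))) (monomial m.1 (1 : ℂ)) := by
  rw [sig, map_sum]
  refine Finset.sum_congr rfl fun l _ => ?_
  rw [map_mul, eval_X, eval_rename]
  rfl

theorem eval_aeval_sig (k : ℕ) (t : X.SV k → ℂ) (q : MvPolynomial (X.MV v) ℂ) :
    eval t (aeval (X.sig k v) q) = eval (fun m => eval t (X.sig k v m)) q := by
  have : ((aeval t : _ →ₐ[ℂ] ℂ).comp (aeval (X.sig k v))) =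
      aeval (fun m => eval t (X.sig k v m)) := by
    apply algHom_ext
    intro s
    rw [AlgHom.comp_apply, aeval_X, aeval_X]
    rfl
  exact DFunLike.congr_fun this q

theorem coords_sum {k : ℕ} (x : Fin k → X.Pt) (c : Fin k → ℂ) (t : X.SV k → ℂ)
    (h1 : ∀ l i, t (Sum.inl (l, i)) = (x l).1 i) (h2 : ∀ l, t (Sum.inr l) = c l) (m : X.MV v) :
    X.coords (∑ i, c i • X.ev v (x i)) m = eval t (X.sig k v m) := by
  rw [eval_sig, coords, LinearMap.sum_apply]
  refine Finset.sum_congr rfl fun l _ => ?_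
  rw [LinearMap.smul_apply, smul_eq_mul, h2]
  congr 1
  rw [show (fun i => t (Sum.inl (l, i))) = (x l).1 from funext (h1 l)]
  rfl

/-- from polynomials on `ℂ^{MV v}` to polynomials on `T_v` -/
noncomputable def fromQ (q : MvPolynomial (X.MV v) ℂ) : MvPolynomial (X.gr v) ℂ :=
  rename (fun m : X.MV v => (⟨monomial m.1 1, X.monomial_mem m.2 1⟩ : X.gr v)) q

theorem eval_fromQ (q : MvPolynomial (X.MV v) ℂ) (F : Module.Dual ℂ (X.gr v)) :
    eval (fun g => F g) (X.fromQ q) = eval (X.coords F) q := by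
  rw [fromQ, eval_rename]
  rfl

theorem apply_eq (F : Module.Dual ℂ (X.gr v)) [Fintype (X.MV v)] (g : X.gr v) :
    F g = ∑ m : X.MV v, coeff m.1 g.1 * X.coords F m := by
  have h1 : g = ∑ m : X.MV v, coeff m.1 g.1 •
      (⟨monomial m.1 1, X.monomial_mem m.2 1⟩ : X.gr v) := by
    apply Subtype.ext
    rw [AddSubmonoidClass.coe_finsetSum]
    simp only [Submodule.coe_smul, smul_monomial, smul_eq_mul, mul_one]
    have hv : v ∈ ({v} : Finset X.Pic) := Finset.mem_singleton_self v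
    ext m
    rw [coeff_sum]
    by_cases hm : Finsupp.weight X.deg m = v
    · rw [Finset.sum_eq_single (⟨m, hm⟩ : X.MV v)]
      · rw [coeff_monomial, if_pos rfl]
      · intro b _ hb
        rw [coeff_monomial, if_neg]
        intro h
        exact hb (Subtype.ext h)
      · intro h; exact absurd (Finset.mem_univ _) h
    · rw [g.2.coeff_eq_zero m hm, Finset.sum_eq_zero]
      intro b _
      rw [coeff_monomial, if_neg]
      intro h
      exact hm (h ▸ b.2)
  conv_lhs => rw [h1]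
  rw [map_sum]
  refine Finset.sum_congr rfl fun m _ => ?_
  rw [map_smul, smul_eq_mul]
  rfl

/-- from polynomials on `T_v` to polynomials on `ℂ^{MV v}` -/
noncomputable def toQ (p : MvPolynomial (X.gr v) ℂ) : MvPolynomial (X.MV v) ℂ :=
  letI : Fintype (X.MV v) := Fintype.ofFinite _
  aeval (fun g : X.gr v => ∑ m : X.MV v, C (coeff m.1 g.1) * MvPolynomial.X m) p

theorem eval_toQ (p : MvPolynomial (X.gr v) ℂ) (F : Module.Dual ℂ (X.gr v)) :
    eval (X.coords F) (X.toQ p) = eval (fun g => F g) p := by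
  letI : Fintype (X.MV v) := Fintype.ofFinite _
  have : ((aeval (X.coords F) : _ →ₐ[ℂ] ℂ).comp
      (aeval (fun g : X.gr v => ∑ m : X.MV v, C (coeff m.1 g.1) * MvPolynomial.X m))) =
      aeval (fun g => F g) := by
    apply algHom_ext
    intro g
    rw [AlgHom.comp_apply, aeval_X, aeval_X, X.apply_eq F g, map_sum]
    refine Finset.sum_congr rfl fun m _ => ?_
    rw [map_mul, aeval_X, algHom_C]
    rfl
  exact DFunLike.congr_fun this p

theorem sum_mem_sec {k : ℕ} (x : Fin k → X.Pt) (c : Fin k → ℂ) :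
    ∑ i, c i • X.ev v (x i) ∈ X.sec k v := fun _ hp => hp x c

/-- a nonzero polynomial is nonzero at some parameter with nonzero coordinates -/
theorem exists_torus_param {k : ℕ} {q : MvPolynomial (X.SV k) ℂ} (hq : q ≠ 0) :
    ∃ (x : Fin k → X.Pt) (c : Fin k → ℂ), (∀ i j, (x i).1 j ≠ 0) ∧
      eval (Sum.elim (fun p : Fin k × Fin X.N => (x p.1).1 p.2) c) q ≠ 0 := by
  have h0 : q * ∏ a : Fin k × Fin X.N, MvPolynomial.X (Sum.inl a) ≠ 0 :=
    mul_ne_zero hq (Finset.prod_ne_zero_iff.2 fun a _ => X_ne_zero _)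
  obtain ⟨t, ht⟩ : ∃ t, eval t (q * ∏ a : Fin k × Fin X.N, MvPolynomial.X (Sum.inl a)) ≠ 0 := by
    by_contra hc
    push Not at hc
    exact h0 (MvPolynomial.funext fun t => by rw [hc t, map_zero])
  rw [map_mul, map_prod] at ht
  have h1 := left_ne_zero_of_mul ht
  have h2 : ∀ l i, t (Sum.inl (l, i)) ≠ 0 := fun l i => by
    have := Finset.prod_ne_zero_iff.1 (right_ne_zero_of_mul ht) (l, i) (Finset.mem_univ _)
    rwa [eval_X] at this
  refine ⟨fun l => X.torusPt (fun i => t (Sum.inl (l, i))) (h2 l), fun l => t (Sum.inr l),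
    h2, ?_⟩
  convert h1 using 2
  congr 1
  funext s
  rcases s with s | s <;> rfl

/-- a polynomial vanishes on the secant variety iff its pullback to the parameters is zero -/
theorem nv_iff (k : ℕ) (p : MvPolynomial (X.gr v) ℂ) :
    (∃ F ∈ X.sec k v, eval (fun g => F g) p ≠ 0) ↔ aeval (X.sig k v) (X.toQ p) ≠ 0 := by
  constructor
  · rintro ⟨F, hF, hp⟩ h0
    apply hp
    refine hF p fun x c => ?_
    rw [← eval_toQ]
    have h1 : X.coords (∑ i, c i • X.ev v (x i)) = fun m => eval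
        (Sum.elim (fun p : Fin k × Fin X.N => (x p.1).1 p.2) c) (X.sig k v m) :=
      funext fun m => X.coords_sum x c _ (fun _ _ => rfl) (fun _ => rfl) m
    rw [h1, ← eval_aeval_sig, h0, map_zero]
  · intro h
    obtain ⟨x, c, -, hxc⟩ := X.exists_torus_param h
    refine ⟨∑ i, c i • X.ev v (x i), X.sum_mem_sec x c, ?_⟩
    rw [← eval_toQ]
    have h1 : X.coords (∑ i, c i • X.ev v (x i)) = fun m => eval
        (Sum.elim (fun p : Fin k × Fin X.N => (x p.1).1 p.2) c) (X.sig k v m) :=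
      funext fun m => X.coords_sum x c _ (fun _ _ => rfl) (fun _ => rfl) m
    rw [h1, ← eval_aeval_sig]
    exact hxc

theorem mem_sec_imp {k : ℕ} {F : Module.Dual ℂ (X.gr v)} (hF : F ∈ X.sec k v)
    (q : MvPolynomial (X.MV v) ℂ) (hq : aeval (X.sig k v) q = 0) : eval (X.coords F) q = 0 := by
  rw [← eval_fromQ]
  refine hF _ fun x c => ?_
  rw [eval_fromQ]
  have h1 : X.coords (∑ i, c i • X.ev v (x i)) = fun m => eval
      (Sum.elim (fun p : Fin k × Fin X.N => (x p.1).1 p.2) c) (X.sig k v m) :=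
    funext fun m => X.coords_sum x c _ (fun _ _ => rfl) (fun _ => rfl) m
  rw [h1, ← eval_aeval_sig, hq, map_zero]

theorem nv_mul {k : ℕ} {p q : MvPolynomial (X.gr v) ℂ}
    (hp : ∃ F ∈ X.sec k v, eval (fun g => F g) p ≠ 0)
    (hq : ∃ F ∈ X.sec k v, eval (fun g => F g) q ≠ 0) :
    ∃ F ∈ X.sec k v, eval (fun g => F g) (p * q) ≠ 0 := by
  rw [nv_iff] at hp hq ⊢
  have : X.toQ (p * q) = X.toQ p * X.toQ q := by
    simp only [toQ, map_mul]
  rw [this, map_mul]
  exact mul_ne_zero hp hq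

theorem sec_mono {k k' : ℕ} (h : k ≤ k') : X.sec k v ⊆ X.sec k' v := by
  obtain ⟨d, rfl⟩ := Nat.exists_eq_add_of_le h
  intro F hF p hp
  refine hF p fun x c => ?_
  have h1 := hp (Fin.append x fun _ : Fin d => Classical.arbitrary X.Pt)
    (Fin.append c fun _ : Fin d => 0)
  rw [Fin.sum_univ_add] at h1
  simpa using h1

theorem borderRank_le {k : ℕ} {F : Module.Dual ℂ (X.gr v)} (h : F ∈ X.sec k v) :
    X.borderRank F ≤ k := Nat.sInf_le h

theorem mem_sec_borderRank {k : ℕ} {F : Module.Dual ℂ (X.gr v)} (h : F ∈ X.sec k v) :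
    F ∈ X.sec (X.borderRank F) v := Nat.sInf_mem (s := {k | F ∈ X.sec k v}) ⟨k, h⟩

/-- the general border rank -/
theorem exists_general_borderRank (r : ℕ) (v : X.Pic) : ∃ k ≤ r, X.sec k v = X.sec r v ∧
    ∃ q : MvPolynomial (X.gr v) ℂ, (∃ F ∈ X.sec r v, eval (fun g => F g) q ≠ 0) ∧
      ∀ F ∈ X.sec r v, eval (fun g => F g) q ≠ 0 → X.borderRank F = k := by
  classical
  have hex : ∃ k, X.sec r v ⊆ X.sec k v := ⟨r, subset_rfl⟩
  let k := Nat.find hex
  have hk : X.sec r v ⊆ X.sec k v := Nat.find_spec hex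
  have hkr : k ≤ r := Nat.find_min' hex subset_rfl
  refine ⟨k, hkr, (X.sec_mono hkr).antisymm hk, ?_⟩
  rcases Nat.eq_zero_or_pos k with h0 | h0
  · refine ⟨1, ⟨_, X.sum_mem_sec (fun _ => Classical.arbitrary X.Pt) 0, ?_⟩, fun F hF _ => ?_⟩
    · rw [map_one]; exact one_ne_zero
    · have := X.borderRank_le (hk hF)
      omega
  · have h1 : ¬ X.sec r v ⊆ X.sec (k - 1) v := Nat.find_min hex (by omega)
    rw [Set.not_subset] at h1
    obtain ⟨F₁, hF₁, hF₁'⟩ := h1
    have h2 : ¬ ∀ p : MvPolynomial (X.gr v) ℂ,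
        (∀ (x : Fin (k - 1) → X.Pt) (c : Fin (k - 1) → ℂ),
          eval (fun g => (∑ i, c i • X.ev v (x i)) g) p = 0) → eval (fun g => F₁ g) p = 0 := hF₁'
    push Not at h2
    obtain ⟨q, hq1, hq2⟩ := h2
    refine ⟨q, ⟨F₁, hF₁, hq2⟩, fun F hF hFq => ?_⟩
    have h3 : F ∉ X.sec (k - 1) v := fun h => hFq (h q hq1)
    have h4 := X.borderRank_le (hk hF)
    by_contra h5
    exact h3 (X.sec_mono (by omega) (X.mem_sec_borderRank hF))

end Pool.Agent.H78.VSP.CoxData
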