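import Mathlib

set_option autoImplicit false

open MvPolynomial

namespace Pool.Agent.H78.VSP

/-- The data of a Cox ring: the polynomial ring `ℂ[x₁,…,x_N]` graded by `ℤˢ` through the degrees
`deg i` of the variables, with finite-dimensional graded pieces, and an irrelevant ideal `B`
containing the product of all variables.  The Cox ring of a smooth projective toric variety `X`
(`ℤˢ = Pic X`, `B` generated by the monomials `∏_{ρ ∉ σ} x_ρ`) is of this form. -/
structure CoxData where
  N : ℕ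
  s : ℕ
  deg : Fin N → (Fin s → ℤ)
  B : Ideal (MvPolynomial (Fin N) ℂ)
  finite_monomials : ∀ u : Fin s → ℤ, {m : Fin N →₀ ℕ | Finsupp.weight deg m = u}.Finite
  prod_mem : (∏ i, X i) ∈ B

/-- `Z` is an irreducible component of the subspace `Y`. -/
def IsComp {α : Type} (t : TopologicalSpace α) (Y Z : Set α) : Prop :=
  Maximal (fun W => IsIrreducible W ∧ W ⊆ Y) Z

/-- The general point of `Z` satisfies `P`. -/
def Generally {α : Type} (t : TopologicalSpace α) (Z : Set α) (P : α → Prop) : Prop :=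
  ∃ O : Set α, IsOpen O ∧ (Z ∩ O).Nonempty ∧ ∀ J ∈ Z ∩ O, P J

namespace CoxData

variable (X : CoxData)

/-- The Cox ring `S`. -/
abbrev S : Type := MvPolynomial (Fin X.N) ℂ

/-- The Picard group `ℤˢ`. -/
abbrev Pic : Type := Fin X.s → ℤ

/-- The graded piece `S_u`. -/
abbrev gr (u : X.Pic) : Submodule ℂ X.S := weightedHomogeneousSubmodule ℂ X.deg u

/-- `T_v`, the dual of `S_v`; `T = ⨁ T_v` is the graded dual of `S`. -/
abbrev T (v : X.Pic) : Type := Module.Dual ℂ (X.gr v)

/-- Points of `X`, given by Cox coordinates: points of `ℂᴺ` outside `V(B)`. -/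
def Pt : Type := {x : Fin X.N → ℂ // ∃ b ∈ X.B, eval x b ≠ 0}

/-- The homogeneous (saturated) ideal of the points `x₁, …, x_r`. -/
noncomputable def ptIdeal {r : ℕ} (x : Fin r → X.Pt) : Ideal X.S :=
  Ideal.span {f | (∃ u, f ∈ X.gr u) ∧ ∀ i, eval (x i).1 f = 0}

/-- `J` is saturated with respect to the irrelevant ideal: `J = (J : B^∞)`. -/
def Saturated (J : Ideal X.S) : Prop :=
  ∀ f, (∃ k : ℕ, ∀ b ∈ X.B ^ k, b * f ∈ J) → f ∈ J

/-- The degree `u` part `J_u` of an ideal. -/
noncomputable abbrev part (J : Ideal X.S) (u : X.Pic) : Submodule ℂ (X.gr u) :=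
  (J.restrictScalars ℂ).comap (X.gr u).subtype

/-- The Hilbert function `u ↦ dim (S_u/J_u)`. -/
noncomputable def HF (J : Ideal X.S) (u : X.Pic) : ℕ := Module.finrank ℂ (X.gr u ⧸ X.part J u)

/-- The Hilbert function `h_{r,X}` of `r` general points (the generic, i.e. maximal, value). -/
noncomputable def HFgen (r : ℕ) (u : X.Pic) : ℕ := ⨆ x : Fin r → X.Pt, X.HF (X.ptIdeal x) u

/-- `J` is homogeneous. -/
def IsHomog (J : Ideal X.S) : Prop := ∀ f ∈ J, ∀ u, weightedHomogeneousComponent X.deg u f ∈ J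

/-- The multigraded Hilbert scheme (its closed points): homogeneous ideals with Hilbert
function `h`. -/
def HilbS (h : X.Pic → ℕ) : Type := {J : Ideal X.S // X.IsHomog J ∧ ∀ u, X.HF J u = h u}

/-- The ideal `J ⊆ S` of a point of the Hilbert scheme. -/
def toIdeal {h : X.Pic → ℕ} (J : X.HilbS h) : Ideal X.S := J.1

/-- Monomials with degree in the finite set `D`. -/
abbrev Mon (D : Finset X.Pic) : Type := {m : Fin X.N →₀ ℕ // Finsupp.weight X.deg m ∈ D}

instance (D : Finset X.Pic) : Finite (X.Mon D) := by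
  have h : ({m : Fin X.N →₀ ℕ | Finsupp.weight X.deg m ∈ D}).Finite := by
    have : {m : Fin X.N →₀ ℕ | Finsupp.weight X.deg m ∈ D} =
        ⋃ u ∈ D, {m : Fin X.N →₀ ℕ | Finsupp.weight X.deg m = u} := by
      ext m; simp
    rw [this]
    exact D.finite_toSet.biUnion fun u _ => X.finite_monomials u
  exact h.to_subtype

noncomputable instance (D : Finset X.Pic) : Fintype (X.Mon D) := Fintype.ofFinite _

/-- `φ` is a frame of `J` in the degrees `D`: for every `u ∈ D` the linear map
`φ_u : S_u → ℂʳ`, `xᵐ ↦ (φ (m, j))_j`, has kernel `J_u`. -/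
def IsFrame {r : ℕ} {D : Finset X.Pic} (φ : X.Mon D × Fin r → ℂ) (J : Ideal X.S) : Prop :=
  ∀ u ∈ D, ∀ f ∈ X.gr u, (f ∈ J ↔ ∀ j, ∑ m : X.Mon D, coeff m.1 f * φ (m, j) = 0)

/-- Pairs of a frame and an ideal in the Hilbert scheme with this frame. -/
def Framed (r : ℕ) (D : Finset X.Pic) (h : X.Pic → ℕ) : Type :=
  {q : (X.Mon D × Fin r → ℂ) × X.HilbS h // X.IsFrame q.1 (X.toIdeal q.2)}

/-- The Zariski topology of the multigraded Hilbert scheme, as a subspace of
`∏_{u ∈ D} Gr(S_u)`: quotient of the Zariski topology on frames (matrices). -/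
@[reducible] noncomputable def zar (r : ℕ) (D : Finset X.Pic) (h : X.Pic → ℕ) :
    TopologicalSpace (X.HilbS h) :=
  TopologicalSpace.coinduced (fun q : X.Framed r D h => q.1.2)
    (TopologicalSpace.induced (fun q => pointToPoint (k := ℂ) q.1.1) PrimeSpectrum.zariskiTopology)

/-- Every ideal in the Hilbert scheme is generated by its elements of degrees in `D`. -/
def Supp (D : Finset X.Pic) (h : X.Pic → ℕ) : Prop :=
  ∀ J : X.HilbS h, X.toIdeal J = Ideal.span {f | f ∈ X.toIdeal J ∧ ∃ u ∈ D, f ∈ X.gr u}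

/-- `Slip_{r,X}`: closure of the set of the saturated ideals of `r` points with Hilbert function
`h_{r,X}`. -/
def Slipr (r : ℕ) (D : Finset X.Pic) : Set (X.HilbS (X.HFgen r)) :=
  @closure _ (X.zar r D _) {J | ∃ x : Fin r → X.Pt, X.toIdeal J = X.ptIdeal x}

/-- `(g k)_v` as an element of `S_v`. -/
noncomputable def mulv (v : X.Pic) (g k : X.S) : X.gr v :=
  ⟨weightedHomogeneousComponent X.deg v (g * k), weightedHomogeneousComponent_mem _ _ _⟩

/-- The annihilator of `F ∈ T_v`: all `g ∈ S` with `F ((g k)_v) = 0` for all `k ∈ S`. -/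
def Annih {v : X.Pic} (F : X.T v) : Set X.S := {g | ∀ k : X.S, F (X.mulv v g k) = 0}

/-- The border variety of sums of powers. -/
def border (r : ℕ) (D : Finset X.Pic) {v : X.Pic} (F : X.T v) : Set (X.HilbS (X.HFgen r)) :=
  {J | J ∈ X.Slipr r D ∧ ∀ g ∈ X.toIdeal J, g ∈ X.Annih F}

/-- The point of `T_v` given by a point of `X` (evaluation of the sections in `S_v`). -/
noncomputable def ev (v : X.Pic) (x : X.Pt) : Module.Dual ℂ (X.gr v) :=
  (aeval x.1 : X.S →ₐ[ℂ] ℂ).toLinearMap.comp (X.gr v).subtype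

/-- The sum of `r` multiples of points of `X` in `T_v`. -/
noncomputable def comb {r : ℕ} (v : X.Pic) (x : Fin r → X.Pt) (c : Fin r → ℂ) : X.T v :=
  ∑ i, c i • X.ev v (x i)

/-- Value at `F` of a polynomial `p` in the linear functions `F ↦ F g`, `g ∈ S_v`, on `T_v`. -/
noncomputable def val {v : X.Pic} (p : MvPolynomial (X.gr v) ℂ) (F : X.T v) : ℂ :=
  eval (fun g => F g) p

/-- The affine cone over the secant variety `σ_r(X)` in `T_v`: Zariski closure of the set of
sums of `r` multiples of points of `X`. -/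
def cone (r : ℕ) (v : X.Pic) : Set (X.T v) :=
  {F | ∀ p, (∀ (x : Fin r → X.Pt) (c : Fin r → ℂ), X.val p (X.comb v x c) = 0) → X.val p F = 0}

/-- The border rank of `F ∈ T_v`. -/
noncomputable def bRank {v : X.Pic} (F : X.T v) : ℕ := sInf {k | F ∈ X.cone k v}

/-- `bVSP(F, k)` is nonempty, and the general point of every irreducible component of it is
saturated, and not nonsaturated. -/
def AllSat (k : ℕ) (D : Finset X.Pic) {v : X.Pic} (F : X.T v) : Prop :=
  (X.border k D F).Nonempty ∧ ∀ Z, IsComp (X.zar k D _) (X.border k D F) Z →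
    Generally (X.zar k D _) Z (fun J => X.Saturated (X.toIdeal J)) ∧
    ¬ Generally (X.zar k D _) Z (fun J => ¬ X.Saturated (X.toIdeal J))

end CoxData

end Pool.Agent.H78.VSP
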