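import Pool.Agent.H78.VSP.Frames

set_option autoImplicit false

open MvPolynomial

namespace Pool.Agent.H78.VSP.CoxData

variable (X : CoxData) {r : ℕ} {D : Finset X.Pic}

/-- pairs (frame, ideal) -/
abbrev FP (r : ℕ) (D : Finset X.Pic) (h : X.Pic → ℕ) : Type :=
  {q : (X.Mon D × Fin r → ℂ) × X.Hilb h // X.IsFrame q.1 q.2.1}

theorem isOpen_topo_iff {h : X.Pic → ℕ} (O : Set (X.Hilb h)) :
    @IsOpen _ (X.topo r D h) O ↔ ∀ q : X.FP r D h, q.1.2 ∈ O →
      ∃ p : MvPolynomial (X.Mon D × Fin r) ℂ, eval q.1.1 p ≠ 0 ∧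
        ∀ q' : X.FP r D h, eval q'.1.1 p ≠ 0 → q'.1.2 ∈ O := by
  unfold topo
  rw [isOpen_coinduced, isOpen_induced_iff]
  have hmem : ∀ (q : X.FP r D h) (p : MvPolynomial (X.Mon D × Fin r) ℂ),
      pointToPoint (k := ℂ) q.1.1 ∈ PrimeSpectrum.basicOpen p ↔ eval q.1.1 p ≠ 0 := by
    intro q p
    rw [PrimeSpectrum.mem_basicOpen]
    show ¬ (p ∈ vanishingIdeal ℂ {q.1.1}) ↔ _
    rw [mem_vanishingIdeal_singleton_iff]
    rfl
  constructor
  · rintro ⟨V, hV, hVO⟩ q hq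
    have h1 : pointToPoint (k := ℂ) q.1.1 ∈ V := by
      have : q ∈ (fun q : X.FP r D h => q.1.2) ⁻¹' O := hq
      rw [← hVO] at this
      exact this
    obtain ⟨_, ⟨p, rfl⟩, hp1, hp2⟩ :=
      PrimeSpectrum.isTopologicalBasis_basic_opens.exists_subset_of_mem_open h1 hV
    refine ⟨p, (hmem q p).1 hp1, fun q' hq' => ?_⟩
    have h2 : q' ∈ (fun q : X.FP r D h => pointToPoint (k := ℂ) q.1.1) ⁻¹' V :=
      hp2 ((hmem q' p).2 hq')
    rw [hVO] at h2
    exact h2
  · intro H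
    refine ⟨⋃ p ∈ {p : MvPolynomial (X.Mon D × Fin r) ℂ |
      ∀ q' : X.FP r D h, eval q'.1.1 p ≠ 0 → q'.1.2 ∈ O}, (PrimeSpectrum.basicOpen p : Set _),
      isOpen_biUnion fun p _ => (PrimeSpectrum.basicOpen p).2, ?_⟩
    ext q
    simp only [Set.mem_preimage, Set.mem_iUnion]
    constructor
    · rintro ⟨p, hp, hqp⟩
      exact hp q ((hmem q p).1 hqp)
    · intro hq
      obtain ⟨p, hp1, hp2⟩ := H q hq
      exact ⟨p, hp2, (hmem q p).2 hp1⟩

/-- every ideal in the Hilbert scheme has a frame -/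
theorem exists_frame (D : Finset X.Pic) (J : X.Hilb (X.hgen r)) :
    ∃ φ : X.Mon D × Fin r → ℂ, X.IsFrame φ J.1 := by
  have key : ∀ u : X.Pic, ∃ L : X.S →ₗ[ℂ] (Fin r → ℂ), ∀ f ∈ X.gr u, (f ∈ J.1 ↔ L f = 0) := by
    intro u
    let P := (J.1.restrictScalars ℂ).comap (X.gr u).subtype
    have h1 : Module.finrank ℂ (X.gr u ⧸ P) ≤ Module.finrank ℂ (Fin r → ℂ) := by
      have : Module.finrank ℂ (X.gr u ⧸ P) = X.hgen r u := J.2.2 u
      rw [this, Module.finrank_fin_fun]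
      exact X.hgen_le r u
    obtain ⟨i, hi⟩ := finrank_le_iff_exists_linearMap.1 h1
    let c : X.S →ₗ[ℂ] X.gr u := LinearMap.codRestrict (X.gr u)
      (weightedHomogeneousComponent X.deg u) (fun f => weightedHomogeneousComponent_mem _ _ _)
    have hc : ∀ f (hf : f ∈ X.gr u), c f = ⟨f, hf⟩ := fun f hf =>
      Subtype.ext (weightedHomogeneousComponent_eq_self hf)
    refine ⟨i.comp (P.mkQ.comp c), fun f hf => ?_⟩
    rw [LinearMap.comp_apply, LinearMap.comp_apply, hc f hf]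
    rw [← map_zero i, hi.eq_iff, Submodule.mkQ_apply, Submodule.Quotient.mk_eq_zero,
      Submodule.mem_comap]
    rfl
  choose L hL using key
  refine ⟨fun s => L (Finsupp.weight X.deg s.1.1) (monomial s.1.1 1) s.2, ?_⟩
  rw [isFrame_iff]
  intro u hu f hf
  rw [hL u f hf]
  have h2 : X.frm (fun s : X.Mon D × Fin r =>
      L (Finsupp.weight X.deg s.1.1) (monomial s.1.1 1) s.2) f = L u f := by
    funext j
    rw [frm_apply]
    conv_rhs => rw [X.eq_sum_mon hu hf, map_sum, Finset.sum_apply]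
    refine Finset.sum_congr rfl fun m _ => ?_
    by_cases hm : Finsupp.weight X.deg m.1 = u
    · have : monomial m.1 (coeff m.1 f) = coeff m.1 f • monomial m.1 (1 : ℂ) := by
        rw [smul_monomial, smul_eq_mul, mul_one]
      rw [this, map_smul, Pi.smul_apply, smul_eq_mul, hm]
    · rw [hf.coeff_eq_zero m.1 hm, zero_mul, map_zero, map_zero]
      rfl
  rw [h2]

theorem noetherian (r : ℕ) (D : Finset X.Pic) :
    @TopologicalSpace.NoetherianSpace (X.Hilb (X.hgen r)) (X.topo r D _) := by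
  let t1 : TopologicalSpace (X.FP r D (X.hgen r)) :=
    TopologicalSpace.induced (fun q => pointToPoint (k := ℂ) q.1.1) PrimeSpectrum.zariskiTopology
  have h1 : TopologicalSpace.NoetherianSpace (X.FP r D (X.hgen r)) :=
    Topology.IsInducing.noetherianSpace (i := fun q : X.FP r D (X.hgen r) =>
      (pointToPoint (k := ℂ) q.1.1 : PrimeSpectrum (MvPolynomial (X.Mon D × Fin r) ℂ))) ⟨rfl⟩
  let t2 := X.topo r D (X.hgen r)
  refine TopologicalSpace.noetherianSpace_of_surjective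
    (fun q : X.FP r D (X.hgen r) => q.1.2) continuous_coinduced_rng ?_
  intro J
  obtain ⟨φ, hφ⟩ := X.exists_frame D J
  exact ⟨⟨(φ, J), hφ⟩, rfl⟩

end Pool.Agent.H78.VSP.CoxData
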